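import Pool.Agent.Run7.h909.TD.Group

/-!
# A group acting on a simply connected complex as a directed colimit
-/

set_option autoImplicit false

namespace Run7.h909.TD

open SimpleGraph
open Pool.Agent.Y462.SS (Closed)

/-! ### functoriality -/

section

variable {V : Type} {S S' S'' : SimpleGraph V} {Φ Φ' Φ'' : Set (ℤ → V)}

theorem coc_mono (hS : S ≤ S') (hΦ : Φ ⊆ Φ') {L : Type} [Group L] {c : V → V → L}
    (h : Coc S' Φ' c) : Coc S Φ c :=
  ⟨fun x y hxy => h.inv x y (hS hxy), fun φ hφ n hn => h.face φ (hΦ hφ) n hn⟩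

/-- the map of the edge groups -/
def pm (hS : S ≤ S') (hΦ : Φ ⊆ Φ') : PG S Φ →* PG S' Φ' := liftC (coc_mono hS hΦ coc_ed)

theorem pm_ed (hS : S ≤ S') (hΦ : Φ ⊆ Φ') (x y : V) :
    pm hS hΦ (ed S Φ x y) = ed S' Φ' x y := liftC_ed _ x y

theorem pm_refl (hS : S ≤ S) (hΦ : Φ ⊆ Φ) : pm hS hΦ = MonoidHom.id _ :=
  pg_ext fun x y => pm_ed hS hΦ x y

theorem pm_trans (hS : S ≤ S') (hΦ : Φ ⊆ Φ') (hS' : S' ≤ S'') (hΦ' : Φ' ⊆ Φ'')
    (hS'' : S ≤ S'') (hΦ'' : Φ ⊆ Φ'') : (pm hS' hΦ').comp (pm hS hΦ) = pm hS'' hΦ'' :=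
  pg_ext fun x y => by rw [MonoidHom.comp_apply, pm_ed, pm_ed, pm_ed]

theorem pm_mk (hS : S ≤ S') (hΦ : Φ ⊆ Φ') (w : FreeGroup (V × V)) :
    pm hS hΦ (PresentedGroup.mk (rels S Φ) w) = PresentedGroup.mk (rels S' Φ') w := by
  have : (pm hS hΦ).comp (PresentedGroup.mk (rels S Φ)) = PresentedGroup.mk (rels S' Φ') :=
    FreeGroup.ext_hom _ _ fun p => pm_ed hS hΦ p.1 p.2
  exact DFunLike.congr_fun this w

theorem mv_adj (hS : S ≤ S') (hΦ : Φ ⊆ Φ') {z w : V × PG S Φ} (h : (DG S Φ).Adj z w) :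
    (DG S' Φ').Adj (z.1, pm hS hΦ z.2) (w.1, pm hS hΦ w.2) := by
  refine ⟨hS h.1, ?_⟩
  rw [h.2, map_mul, pm_ed]

theorem mv_mem (hS : S ≤ S') (hΦ : Φ ⊆ Φ') {o : V} {z : V × PG S Φ} (h : z ∈ KS S Φ o) :
    (z.1, pm hS hΦ z.2) ∈ KS S' Φ' o := by
  have h' := (reachable_iff_reflTransGen _ _).1 h
  clear h
  refine (reachable_iff_reflTransGen _ _).2 ?_
  induction h' with
  | refl =>
    rw [map_one]
  | tail _ hbc ih => exact ih.tail (mv_adj hS hΦ hbc)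

variable {G : Type} [Group G] [MulAction G V] {H H' H'' : Subgroup G}

theorem pm_sh (hS : S ≤ S') (hΦ : Φ ⊆ Φ') (hH : H ≤ H') (hA : Ac H S Φ) (hA' : Ac H' S' Φ')
    (g : H) (π : PG S Φ) :
    pm hS hΦ (sh hA g π) = sh hA' (Subgroup.inclusion hH g) (pm hS hΦ π) := by
  have : (pm hS hΦ).comp (sh hA g) = (sh hA' (Subgroup.inclusion hH g)).comp (pm hS hΦ) :=
    pg_ext fun x y => by
      rw [MonoidHom.comp_apply, MonoidHom.comp_apply, sh_ed, pm_ed, pm_ed, sh_ed]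
      rfl
  exact DFunLike.congr_fun this π

/-- the map of the extensions -/
def em (hS : S ≤ S') (hΦ : Φ ⊆ Φ') (hH : H ≤ H') (hA : Ac H S Φ) (hA' : Ac H' S' Φ') :
    EG hA →* EG hA' where
  toFun γ := ⟨pm hS hΦ γ.left, Subgroup.inclusion hH γ.right⟩
  map_one' := SemidirectProduct.ext (map_one _) (map_one _)
  map_mul' γ δ := by
    refine SemidirectProduct.ext ?_ (map_mul _ _ _)
    show pm hS hΦ (γ.left * sh hA γ.right δ.left) = _
    rw [map_mul, pm_sh hS hΦ hH hA hA']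
    rfl

theorem em_left (hS : S ≤ S') (hΦ : Φ ⊆ Φ') (hH : H ≤ H') (hA : Ac H S Φ) (hA' : Ac H' S' Φ')
    (γ : EG hA) : (em hS hΦ hH hA hA' γ).left = pm hS hΦ γ.left := rfl

theorem em_right (hS : S ≤ S') (hΦ : Φ ⊆ Φ') (hH : H ≤ H') (hA : Ac H S Φ) (hA' : Ac H' S' Φ')
    (γ : EG hA) : (em hS hΦ hH hA hA' γ).right = Subgroup.inclusion hH γ.right := rfl

theorem incl_smul (hH : H ≤ H') (g : H) (x : V) : Subgroup.inclusion hH g • x = g • x := by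
  rw [Subgroup.smul_def, Subgroup.smul_def, Subgroup.coe_inclusion]

theorem em_smul (hS : S ≤ S') (hΦ : Φ ⊆ Φ') (hH : H ≤ H') (hA : Ac H S Φ) (hA' : Ac H' S' Φ')
    (γ : EG hA) (z : V × PG S Φ) : em hS hΦ hH hA hA' γ • ((z.1, pm hS hΦ z.2) : V × PG S' Φ') =
      ((γ • z).1, pm hS hΦ (γ • z).2) := by
  refine Prod.ext ?_ ?_
  · rw [smul_fst, em_right, smul_fst, incl_smul]
  · rw [smul_snd, em_right, em_left]
    dsimp only
    rw [smul_snd, map_mul, pm_sh hS hΦ hH hA hA']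

theorem em_mem (hS : S ≤ S') (hΦ : Φ ⊆ Φ') (hH : H ≤ H') (hA : Ac H S Φ) (hA' : Ac H' S' Φ')
    {o : V} {γ : EG hA} (h : γ ∈ Gam hA o) : em hS hΦ hH hA hA' γ ∈ Gam hA' o := by
  have h1 := mv_mem hS hΦ (show γ • ((o, 1) : V × PG S Φ) ∈ KS S Φ o from h)
  have h2 := em_smul hS hΦ hH hA hA' γ (o, 1)
  rw [← h2] at h1
  dsimp only at h1
  rw [map_one] at h1
  exact h1

/-- the map of the groups of the covers -/
def gm (hS : S ≤ S') (hΦ : Φ ⊆ Φ') (hH : H ≤ H') (hA : Ac H S Φ) (hA' : Ac H' S' Φ') (o : V) :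
    Gam hA o →* Gam hA' o where
  toFun γ := ⟨em hS hΦ hH hA hA' γ.1, em_mem hS hΦ hH hA hA' γ.2⟩
  map_one' := Subtype.ext (map_one _)
  map_mul' γ δ := Subtype.ext (map_mul _ _ _)

end

/-! ### the directed system -/

section

variable {G V : Type} [Group G] [MulAction G V] (T : SimpleGraph V) (F : Set (ℤ → V))

/-- the index set -/
abbrev Ix (G V : Type) : Type := Finset G × Finset (V × V)

/-- the subgroup -/
def Hi (i : Ix G V) : Subgroup G := Subgroup.closure (i.1 : Set G)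

/-- the subgraph -/
def Si (i : Ix G V) : SimpleGraph V where
  Adj x y := T.Adj x y ∧ ∃ g ∈ Hi i, (g • x, g • y) ∈ i.2 ∨ (g • y, g • x) ∈ i.2
  symm := ⟨fun x y ⟨h, g, hg, h'⟩ => ⟨h.symm, g, hg, h'.symm⟩⟩
  loopless := ⟨fun _ h => T.loopless.irrefl _ h.1⟩

/-- the faces -/
def Fi (i : Ix G V) : Set (ℤ → V) := {φ | φ ∈ F ∧ ∀ k : ℤ, (Si T i).Adj (φ k) (φ (k + 1))}

variable {T F}

theorem Hi_mono {i j : Ix G V} (h : i ≤ j) : Hi (V := V) i ≤ Hi j :=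
  Subgroup.closure_mono (Finset.coe_subset.2 h.1)

theorem Si_mono {i j : Ix G V} (h : i ≤ j) : Si T i ≤ Si T j := by
  rintro x y ⟨h1, g, hg, h2⟩
  exact ⟨h1, g, Hi_mono h hg, h2.imp (fun h3 => h.2 h3) (fun h3 => h.2 h3)⟩

theorem Fi_mono {i j : Ix G V} (h : i ≤ j) : Fi T F i ⊆ Fi T F j :=
  fun _ hφ => ⟨hφ.1, fun k => Si_mono h (hφ.2 k)⟩

theorem Si_le (i : Ix G V) : Si T i ≤ T := fun _ _ h => h.1

theorem Fi_sub (i : Ix G V) : Fi T F i ⊆ F := fun _ h => h.1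

theorem Ai (hA : Ac G T F) (i : Ix G V) : Ac (Hi i) (Si T i) (Fi T F i) := by
  have h1 : ∀ (h : Hi i) (x y : V), (Si T i).Adj x y → (Si T i).Adj (h • x) (h • y) := by
    rintro h x y ⟨h1, g, hg, h2⟩
    refine ⟨hA.adj _ _ _ h1, g * (h : G)⁻¹, (Hi i).mul_mem hg ((Hi i).inv_mem h.2), ?_⟩
    have e : ∀ z : V, (g * (h : G)⁻¹) • h • z = g • z := by
      intro z
      show (g * (h : G)⁻¹) • (h : G) • z = g • z
      rw [mul_smul, inv_smul_smul]
    rwa [e, e]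
  exact ⟨h1, fun h φ hφ => ⟨hA.face h φ hφ.1, fun k => h1 h _ _ (hφ.2 k)⟩⟩

theorem Mii {ℓ : V → V → ℝ} {w : (ℤ → V) → ℝ} (hM : Mi G T F ℓ w) (i : Ix G V) :
    Mi (Hi (V := V) i) (Si T i) (Fi T F i) ℓ w :=
  ⟨fun g x y h => hM.len g x y h.1, fun g φ hφ => hM.ang g φ hφ.1⟩

theorem Ci {ℓ : V → V → ℝ} {w : (ℤ → V) → ℝ} (hx : Cx T F ℓ w) (i : Ix G V) :
    Cx (Si T i) (Fi T F i) ℓ w := by
  constructor
  · exact fun φ hφ k => hφ.2 k
  · exact fun φ hφ => hx.per φ hφ.1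
  · intro φ hφ k
    refine ⟨hx.shift φ hφ.1 k, fun l => ?_⟩
    have := hφ.2 (l + k)
    have e : l + k + 1 = l + 1 + k := by ring
    rw [e] at this
    exact this
  · intro φ hφ
    refine ⟨hx.refl φ hφ.1, fun l => ?_⟩
    have := (hφ.2 (-(l + 1))).symm
    have e : -(l + 1) + 1 = -l := by ring
    rw [e] at this
    exact this
  · exact fun x y h => hx.len x y h.1
  · exact fun φ hφ => hx.ang φ hφ.1
  · exact fun φ hφ => hx.poly φ hφ.1
  · exact fun φ hφ ψ hψ => hx.corner φ hφ.1 ψ hψ.1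
  · intro b k hk a ha ψ h
    exact hx.link b k hk a ha ψ fun l => ⟨(h l).1.1, (h l).2⟩

theorem gm_val {S S' : SimpleGraph V} {Φ Φ' : Set (ℤ → V)} {H H' : Subgroup G} (hS : S ≤ S')
    (hΦ : Φ ⊆ Φ') (hH : H ≤ H') (hA : Ac H S Φ) (hA' : Ac H' S' Φ') (o : V) (x : Gam hA o) :
    (gm hS hΦ hH hA hA' o x).1 = em hS hΦ hH hA hA' x.1 := rfl

theorem gm_refl (hA : Ac G T F) (o : V) (i : Ix G V) (h : i ≤ i) (x : Gam (Ai hA i) o) :
    gm (Si_mono h) (Fi_mono h) (Hi_mono h) (Ai hA i) (Ai hA i) o x = x := by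
  apply Subtype.ext
  rw [gm_val]
  apply SemidirectProduct.ext
  · rw [em_left, pm_refl, MonoidHom.id_apply]
  · rw [em_right]
    apply Subtype.ext
    rw [Subgroup.coe_inclusion]

theorem gm_trans (hA : Ac G T F) (o : V) (i j k : Ix G V) (h : i ≤ j) (h' : j ≤ k)
    (x : Gam (Ai hA i) o) :
    gm (Si_mono h') (Fi_mono h') (Hi_mono h') (Ai hA j) (Ai hA k) o
      (gm (Si_mono h) (Fi_mono h) (Hi_mono h) (Ai hA i) (Ai hA j) o x) =
    gm (Si_mono (h.trans h')) (Fi_mono (h.trans h')) (Hi_mono (h.trans h')) (Ai hA i)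
      (Ai hA k) o x := by
  apply Subtype.ext
  rw [gm_val, gm_val, gm_val]
  apply SemidirectProduct.ext
  · rw [em_left, em_left, em_left, ← pm_trans (Si_mono h) (Fi_mono h) (Si_mono h') (Fi_mono h')
      (Si_mono (h.trans h')) (Fi_mono (h.trans h')), MonoidHom.comp_apply]
  · rw [em_right, em_right, em_right]
    apply Subtype.ext
    rw [Subgroup.coe_inclusion, Subgroup.coe_inclusion, Subgroup.coe_inclusion]

/-- the relators of the whole complex occur in the system -/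
theorem rels_Ix {ℓ : V → V → ℝ} {w : (ℤ → V) → ℝ} (hx : Cx T F ℓ w) (i : Ix G V) {v : FreeGroup (V × V)}
    (hw : v ∈ rels T F) : ∃ j, i ≤ j ∧ v ∈ rels (Si T j) (Fi T F j) := by
  classical
  rcases hw with ⟨x, y, hxy, rfl⟩ | ⟨φ, hφ, n, hn, rfl⟩
  · refine ⟨(i.1, i.2 ∪ {(x, y)}), ⟨le_rfl, Finset.subset_union_left⟩, Or.inl ⟨x, y, ?_, rfl⟩⟩
    refine ⟨hxy, 1, Subgroup.one_mem _, Or.inl ?_⟩
    simp
  · refine ⟨(i.1, i.2 ∪ (Finset.range n).image fun k : ℕ => (φ k, φ (k + 1))),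
      ⟨le_rfl, Finset.subset_union_left⟩, Or.inr ⟨φ, ⟨hφ, fun k => ?_⟩, n, hn, rfl⟩⟩
    obtain ⟨n', hn', hn''⟩ := hx.per φ hφ
    have hnn : n' = n := hn''.unique hn
    subst hnn
    refine ⟨hx.adj φ hφ k, 1, Subgroup.one_mem _, Or.inl ?_⟩
    rw [one_smul, one_smul]
    have hn0 : 0 < n' := by omega
    have e1 := Int.emod_nonneg k (b := n') (by omega)
    have e2 := Int.emod_lt_of_pos k (b := n') (by omega)
    refine Finset.mem_union_right _ (Finset.mem_image.2 ⟨(k % n').toNat,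
      Finset.mem_range.2 (by omega), ?_⟩)
    rw [Int.toNat_of_nonneg e1]
    have e3 : (n' : ℤ) ∣ k % n' - k := by
      have := Int.dvd_self_sub_emod (x := k) (m := (n' : ℤ))
      have h2 : k % n' - k = -(k - k % n') := by ring
      rw [h2, dvd_neg]
      exact this
    refine Prod.ext ((hn _ _).2 e3) ((hn _ _).2 ?_)
    have h3 : k % (n' : ℤ) + 1 - (k + 1) = k % n' - k := by ring
    rw [h3]
    exact e3

end

end Run7.h909.TD
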