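import Pool.Agent.Run7.h909.TD.Colim

/-!
# A group acting on a simply connected complex as a directed colimit: the theorem
-/

set_option autoImplicit false

namespace Run7.h909.TD

open SimpleGraph
open Pool.Agent.Y462.SS (Closed)

section

variable {G V : Type} [Group G] [MulAction G V] {T : SimpleGraph V} {F : Set (ℤ → V)}

theorem Ix_dir (i j : Ix G V) : ∃ k, i ≤ k ∧ j ≤ k := by
  classical
  exact ⟨(i.1 ∪ j.1, i.2 ∪ j.2), ⟨Finset.subset_union_left, Finset.subset_union_left⟩,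
    ⟨Finset.subset_union_right, Finset.subset_union_right⟩⟩

/-- the elements which die in the system -/
def Dd (T : SimpleGraph V) (F : Set (ℤ → V)) (i : Ix G V) : Subgroup (FreeGroup (V × V)) where
  carrier := {w | ∃ j, i ≤ j ∧ w ∈ Subgroup.normalClosure (rels (Si T j) (Fi T F j))}
  one_mem' := ⟨i, le_rfl, Subgroup.one_mem _⟩
  mul_mem' := by
    rintro a b ⟨j, hj, ha⟩ ⟨k, hk, hb⟩
    obtain ⟨l, h1, h2⟩ := Ix_dir j k
    have m : ∀ {j : Ix G V}, j ≤ l → Subgroup.normalClosure (rels (Si T j) (Fi T F j)) ≤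
        Subgroup.normalClosure (rels (Si T l) (Fi T F l)) := by
      intro j hjl
      refine Subgroup.normalClosure_mono ?_
      rintro w (⟨x, y, hxy, rfl⟩ | ⟨φ, hφ, n, hn, rfl⟩)
      · exact Or.inl ⟨x, y, Si_mono hjl hxy, rfl⟩
      · exact Or.inr ⟨φ, Fi_mono hjl hφ, n, hn, rfl⟩
    exact ⟨l, hj.trans h1, Subgroup.mul_mem _ (m h1 ha) (m h2 hb)⟩
  inv_mem' := by
    rintro a ⟨j, hj, ha⟩
    exact ⟨j, hj, Subgroup.inv_mem _ ha⟩

instance (i : Ix G V) : (Dd T F i).Normal := by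
  constructor
  rintro n ⟨j, hj, hn⟩ g
  exact ⟨j, hj, Subgroup.normalClosure_normal.conj_mem n hn g⟩

theorem rels_le {ℓ : V → V → ℝ} {w : (ℤ → V) → ℝ} (hx : Cx T F ℓ w) (i : Ix G V) :
    Subgroup.normalClosure (rels T F) ≤ Dd T F i := by
  refine Subgroup.normalClosure_le_normal fun w hw => ?_
  obtain ⟨j, hj, hwj⟩ := rels_Ix hx i hw
  exact ⟨j, hj, Subgroup.subset_normalClosure hwj⟩

/-- the elements with trivial image in `G` die in the system -/
theorem ker_dies {ℓ : V → V → ℝ} {w : (ℤ → V) → ℝ} (hx : Cx T F ℓ w) (hA : Ac G T F) (hs : SC T F) (o : V)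
    (i : Ix G V) (x : Gam (Ai hA i) o) (h1 : ((prH (Ai hA i) o x : Hi (V := V) i) : G) = 1) :
    ∃ j, ∃ h : i ≤ j,
      gm (Si_mono h) (Fi_mono h) (Hi_mono h) (Ai hA i) (Ai hA j) o x = 1 := by
  obtain ⟨f, hf⟩ := hs.2 (PG T F) (ed T F) coc_ed
  have key : ∀ z ∈ KS (Si T i) (Fi T F i) o,
      pm (Si_le i) (Fi_sub i) z.2 = (f o)⁻¹ * f z.1 := by
    intro z hz
    have hz' := (reachable_iff_reflTransGen _ _).1 hz
    clear hz
    induction hz' with
    | refl => simp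
    | tail _ hbc ih =>
      rw [hbc.2, map_mul, ih, pm_ed, hf _ _ (Si_le i hbc.1)]
      group
  have hr : x.1.right = 1 := Subtype.ext h1
  have hm : x.1 • ((o, 1) : V × PG (Si T i) (Fi T F i)) ∈ KS (Si T i) (Fi T F i) o := x.2
  have h2 := key _ hm
  rw [smul_snd, smul_fst, map_one, mul_one, hr, one_smul, inv_mul_cancel] at h2
  obtain ⟨w, hw⟩ := PresentedGroup.mk_surjective (rels (Si T i) (Fi T F i)) x.1.left
  rw [← hw, pm_mk] at h2
  have h3 : w ∈ Subgroup.normalClosure (rels T F) := (QuotientGroup.eq_one_iff w).1 h2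
  obtain ⟨j, hj, hwj⟩ := rels_le hx i h3
  refine ⟨j, hj, ?_⟩
  apply Subtype.ext
  rw [gm_val]
  apply SemidirectProduct.ext
  · rw [em_left, ← hw, pm_mk]
    exact (QuotientGroup.eq_one_iff w).2 hwj
  · rw [em_right, hr, map_one]
    rfl

theorem reach_Ix (o x : V) (h : T.Reachable o x) : ∃ E : Finset (V × V), ∀ j : Ix G V, E ⊆ j.2 →
    ∃ π, (x, π) ∈ KS (Si T j) (Fi T F j) o := by
  classical
  rw [reachable_iff_reflTransGen] at h
  induction h with
  | refl => exact ⟨∅, fun j _ => ⟨1, Reachable.refl _⟩⟩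
  | @tail b c _ hbc ih =>
    obtain ⟨E, hE⟩ := ih
    refine ⟨E ∪ {(b, c)}, fun j hj => ?_⟩
    obtain ⟨π, hπ⟩ := hE j (Finset.union_subset_left hj)
    refine ⟨π * ed _ _ b c, KS_adj hπ ⟨⟨hbc, 1, Subgroup.one_mem _, Or.inl ?_⟩, rfl⟩⟩
    rw [one_smul, one_smul]
    exact hj (by simp)

theorem mem_Gam {H : Type} [Group H] [MulAction H V] {S : SimpleGraph V} {Φ : Set (ℤ → V)}
    (hA : Ac H S Φ) {o : V} {π : PG S Φ} {h : H} (hm : (h • o, π) ∈ KS S Φ o) :
    (⟨π, h⟩ : EG hA) ∈ Gam hA o := by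
  show (⟨π, h⟩ : EG hA) • ((o, 1) : V × PG S Φ) ∈ KS S Φ o
  have e : (⟨π, h⟩ : EG hA) • ((o, 1) : V × PG S Φ) = (h • o, π) := by
    refine Prod.ext ?_ ?_
    · rw [smul_fst]
    · rw [smul_snd]
      dsimp only
      rw [map_one, mul_one]
  rw [e]
  exact hm

/-- the homomorphism to `G` -/
def prG (hA : Ac G T F) (o : V) (i : Ix G V) : Gam (Ai hA i) o →* G :=
  (Hi (V := V) i).subtype.comp (prH (Ai hA i) o)

theorem prG_apply (hA : Ac G T F) (o : V) (i : Ix G V) (x : Gam (Ai hA i) o) :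
    prG hA o i x = (x.1.right : G) := rfl

theorem prG_gm (hA : Ac G T F) (o : V) (i j : Ix G V) (h : i ≤ j) (x : Gam (Ai hA i) o) :
    prG hA o j (gm (Si_mono h) (Fi_mono h) (Hi_mono h) (Ai hA i) (Ai hA j) o x) =
      prG hA o i x := by
  rw [prG_apply, prG_apply, gm_val, em_right, Subgroup.coe_inclusion]

theorem prG_surj (hA : Ac G T F) (hs : SC T F) (o : V) (y : G) :
    ∃ i, ∃ x : Gam (Ai hA i) o, prG hA o i x = y := by
  classical
  obtain ⟨E, hE⟩ := reach_Ix (G := G) (F := F) o (y • o) (hs.1.preconnected o (y • o))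
  obtain ⟨π, hπ⟩ := hE ({y}, E) (by exact subset_rfl)
  have hy : y ∈ Hi (V := V) (({y}, E) : Ix G V) := Subgroup.subset_closure (by simp)
  refine ⟨({y}, E), ⟨_, mem_Gam (Ai hA _) (h := ⟨y, hy⟩) (π := π) ?_⟩, ?_⟩
  · rw [Subgroup.smul_def]
    exact hπ
  · rw [prG_apply]

/-- **the colimit** -/
theorem col {C : ∀ (G : Type) [Group G], Prop} (hC : Closed C) {ℓ : V → V → ℝ}
    {w : (ℤ → V) → ℝ} (hx : Cx T F ℓ w) (hA : Ac G T F) (hs : SC T F) (o : V)
    (h : ∀ i : Ix G V, C (Gam (Ai hA i) o)) : C G := by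
  have hne : Nonempty (Ix G V) := ⟨(∅, ∅)⟩
  refine hC.colim (Ix G V) Ix_dir (fun i => Gam (Ai hA i) o)
    (fun i j h => gm (Si_mono h) (Fi_mono h) (Hi_mono h) (Ai hA i) (Ai hA j) o) G
    (fun i => prG hA o i) (fun i h x => gm_refl hA o i h x)
    (fun i j k h h' x => gm_trans hA o i j k h h' x) (fun i j h x => prG_gm hA o i j h x)
    (prG_surj hA hs o) ?_ h
  intro i x h1
  exact ker_dies hx hA hs o i x h1

end

end Run7.h909.TD
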