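import Pool.Agent.Run7.h909.TD.Defs

/-!
# The universal cover of a complex
-/

set_option autoImplicit false

namespace Run7.h909.TD

open SimpleGraph

section

variable {V : Type} (S : SimpleGraph V) (Φ : Set (ℤ → V))

/-- the relators of the edge group -/
def rels : Set (FreeGroup (V × V)) :=
  {w | ∃ x y, S.Adj x y ∧ w = FreeGroup.of (x, y) * FreeGroup.of (y, x)} ∪
  {w | ∃ φ ∈ Φ, ∃ n : ℕ, Per φ n ∧ w = wrap (fun x y => FreeGroup.of (x, y)) φ n}

/-- the edge group -/
abbrev PG : Type := PresentedGroup (rels S Φ)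

/-- the edges as elements of the edge group -/
def ed (x y : V) : PG S Φ := PresentedGroup.of (x, y)

variable {S Φ}

theorem coc_ed : Coc S Φ (ed S Φ) := by
  constructor
  · intro x y h
    have h1 : (PresentedGroup.mk (rels S Φ)) (FreeGroup.of (x, y) * FreeGroup.of (y, x)) = 1 :=
      PresentedGroup.one_of_mem (Or.inl ⟨x, y, h, rfl⟩)
    rw [map_mul] at h1
    exact h1
  · intro φ hφ n hn
    have h1 : (PresentedGroup.mk (rels S Φ)) (wrap (fun x y => FreeGroup.of (x, y)) φ n) = 1 :=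
      PresentedGroup.one_of_mem (Or.inr ⟨φ, hφ, n, hn, rfl⟩)
    rw [wrap_map] at h1
    exact h1

theorem rel_lift {M : Type} [Group M] {c : V → V → M} (h : Coc S Φ c) :
    ∀ w ∈ rels S Φ, FreeGroup.lift (fun p : V × V => c p.1 p.2) w = 1 := by
  rintro w (⟨x, y, hxy, rfl⟩ | ⟨φ, hφ, n, hn, rfl⟩)
  · rw [map_mul, FreeGroup.lift_apply_of, FreeGroup.lift_apply_of]
    exact h.inv x y hxy
  · rw [wrap_map]
    simp only [FreeGroup.lift_apply_of]
    exact h.face φ hφ n hn

/-- the homomorphism given by a cocycle -/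
def liftC {M : Type} [Group M] {c : V → V → M} (h : Coc S Φ c) : PG S Φ →* M :=
  PresentedGroup.toGroup (f := fun p : V × V => c p.1 p.2) (rel_lift h)

theorem liftC_ed {M : Type} [Group M] {c : V → V → M} (h : Coc S Φ c) (x y : V) :
    liftC h (ed S Φ x y) = c x y := PresentedGroup.toGroup.of (rel_lift h)

variable (S Φ)

/-- the derived graph -/
def DG : SimpleGraph (V × PG S Φ) where
  Adj z w := S.Adj z.1 w.1 ∧ w.2 = z.2 * ed S Φ z.1 w.1
  symm := ⟨by
    rintro z w ⟨h1, h2⟩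
    refine ⟨h1.symm, ?_⟩
    rw [h2, mul_assoc, coc_ed.inv _ _ h1, mul_one]⟩
  loopless := ⟨fun z h => S.loopless.irrefl _ h.1⟩

/-- the vertices of the universal cover -/
def KS (o : V) : Set (V × PG S Φ) := {z | (DG S Φ).Reachable (o, 1) z}

/-- the graph of the universal cover -/
def DK (o : V) : SimpleGraph (KS S Φ o) where
  Adj z w := (DG S Φ).Adj z.1 w.1
  symm := ⟨fun _ _ h => (DG S Φ).adj_symm h⟩
  loopless := ⟨fun z h => (DG S Φ).loopless.irrefl _ h⟩

/-- the faces of the universal cover -/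
def FK (o : V) : Set (ℤ → KS S Φ o) :=
  {φ | (fun i => (φ i).1.1) ∈ Φ ∧ ∀ i : ℤ, (DG S Φ).Adj (φ i).1 (φ (i + 1)).1}

variable {S Φ}

theorem KS_adj {o : V} {z w : V × PG S Φ} (hz : z ∈ KS S Φ o) (h : (DG S Φ).Adj z w) :
    w ∈ KS S Φ o := Reachable.trans hz h.reachable

theorem snd_add {φ : ℤ → V × PG S Φ} (h : ∀ i : ℤ, (DG S Φ).Adj (φ i) (φ (i + 1))) (i : ℤ)
    (k : ℕ) : (φ (k + i)).2 = (φ i).2 * wrap (ed S Φ) (fun j => (φ (j + i)).1) k := by
  induction k with
  | zero => simp [wrap_zero]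
  | succ k ih =>
    rw [wrap_succ, ← mul_assoc, ← ih]
    have h1 := (h (k + i)).2
    have h2 : ((k + 1 : ℕ) : ℤ) + i = k + i + 1 := by push_cast; ring
    have h3 : (k : ℤ) + 1 + i = k + i + 1 := by ring
    rw [h2, h1]
    show _ = _ * ed S Φ (φ (k + i)).1 (φ (k + 1 + i)).1
    rw [h3]

theorem per_lift {ℓ : V → V → ℝ} {w : (ℤ → V) → ℝ} (hx : Cx S Φ ℓ w) {φ : ℤ → V × PG S Φ} {n : ℕ}
    (hm : (fun i => (φ i).1) ∈ Φ) (hn : Per (fun i => (φ i).1) n)
    (h : ∀ i : ℤ, (DG S Φ).Adj (φ i) (φ (i + 1))) : Per φ n := by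
  have h1 : Function.Periodic φ (n : ℤ) := by
    intro i
    refine Prod.ext (hn.eq i) ?_
    rw [add_comm, snd_add h i n, coc_ed.face _ (hx.shift _ hm i) n (hn.shift i), mul_one]
  intro i j
  constructor
  · intro hij
    exact (hn i j).1 (congrArg Prod.fst hij)
  · rintro ⟨t, ht⟩
    have h2 : i = j + t * n := by linarith
    rw [h2]
    exact h1.int_mul t j

theorem cx_cover {ℓ : V → V → ℝ} {w : (ℤ → V) → ℝ} (hx : Cx S Φ ℓ w) (o : V) :
    Cx (DK S Φ o) (FK S Φ o) (fun x y => ℓ x.1.1 y.1.1) (fun φ => w fun i => (φ i).1.1) := by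
  constructor
  · intro φ hφ i
    exact hφ.2 i
  · intro φ hφ
    obtain ⟨n, hn, hn'⟩ := hx.per _ hφ.1
    refine ⟨n, hn, ?_⟩
    have h1 := per_lift hx (φ := fun i => (φ i).1) hφ.1 hn' hφ.2
    intro i j
    exact Subtype.ext_iff.trans (h1 i j)
  · intro φ hφ k
    refine ⟨hx.shift _ hφ.1 k, fun i => ?_⟩
    have := hφ.2 (i + k)
    have h2 : i + k + 1 = i + 1 + k := by ring
    rw [h2] at this
    exact this
  · intro φ hφ
    refine ⟨hx.refl _ hφ.1, fun i => ?_⟩
    have := (hφ.2 (-(i + 1))).symm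
    have h2 : -(i + 1) + 1 = -i := by ring
    rw [h2] at this
    exact this
  · intro x y hxy
    exact hx.len _ _ (show (DG S Φ).Adj x.1 y.1 from hxy).1
  · intro φ hφ
    exact hx.ang _ hφ.1
  · intro φ hφ n hn
    obtain ⟨m, -, hm⟩ := hx.per _ hφ.1
    have h1 : Per φ m := by
      have h1 := per_lift hx (φ := fun i => (φ i).1) hφ.1 hm hφ.2
      intro i j
      exact Subtype.ext_iff.trans (h1 i j)
    have hmn : m = n := h1.unique hn
    subst hmn
    exact hx.poly _ hφ.1 m hm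
  · intro φ hφ ψ hψ h0 h1 h2
    have h3 : (fun i => (φ i).1.1) = fun i => (ψ i).1.1 := by
      refine hx.corner _ hφ.1 _ hψ.1 ?_ ?_ ?_
      · show (φ 0).1.1 = _
        rw [h0]
      · show (φ 1).1.1 = _
        rw [h1]
      · show (φ (-1)).1.1 = _
        rw [h2]
    have h4 : ∀ i, (φ i).1.1 = (ψ i).1.1 := fun i => congrFun h3 i
    funext i
    induction i using Int.induction_on with
    | zero => exact h0
    | succ k ih =>
      refine Subtype.ext (Prod.ext (h4 _) ?_)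
      rw [(hφ.2 k).2, (hψ.2 k).2, ih, h4 (k + 1)]
    | pred k ih =>
      refine Subtype.ext (Prod.ext (h4 _) ?_)
      have e1 := (hφ.2 (-k - 1)).2
      have e2 := (hψ.2 (-k - 1)).2
      have e3 : (-k - 1 : ℤ) + 1 = -k := by ring
      rw [e3] at e1 e2
      rw [ih, e2, h4 (-k - 1)] at e1
      exact (mul_right_cancel e1).symm
  · intro b k hk a ha ψ hf
    have had : ∀ i : ℤ, (DG S Φ).Adj b.1 (a i).1 := by
      intro i
      obtain ⟨hφ, h0, -, h1⟩ := hf (i - 1)
      have h2 := hφ.2 0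
      rw [zero_add, h0, h1, sub_add_cancel] at h2
      exact h2
    refine hx.link b.1.1 k hk (fun i => (a i).1.1) ?_ (fun i j => (ψ i j).1.1) ?_
    · refine Per.comp (fun z : KS S Φ o => z.1.1) ?_ ha
      intro i j hij
      refine Subtype.ext (Prod.ext hij ?_)
      rw [(had i).2, (had j).2]
      show _ = _ * ed S Φ b.1.1 (a j).1.1
      rw [← show (a i).1.1 = (a j).1.1 from hij]
    · intro i
      obtain ⟨hφ, h0, h1, h2⟩ := hf i
      refine ⟨hφ.1, ?_, ?_, ?_⟩
      · show (ψ i 0).1.1 = _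
        rw [h0]
      · show (ψ i (-1)).1.1 = _
        rw [h1]
      · show (ψ i 1).1.1 = _
        rw [h2]

theorem conn_cover (o : V) : (DK S Φ o).Connected := by
  have key : ∀ z, (DG S Φ).Reachable (o, 1) z → ∀ hz : z ∈ KS S Φ o,
      (DK S Φ o).Reachable ⟨(o, 1), Reachable.refl _⟩ ⟨z, hz⟩ := by
    intro z h
    rw [reachable_iff_reflTransGen] at h
    induction h with
    | refl => intro _; exact Reachable.refl _
    | tail hab hbc ih =>
      intro hz
      rename_i b c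
      have hb : b ∈ KS S Φ o := (reachable_iff_reflTransGen _ _).2 hab
      exact (ih hb).trans (Adj.reachable (G := DK S Φ o) (u := ⟨b, hb⟩) (v := ⟨c, hz⟩) hbc)
  have : Nonempty (KS S Φ o) := ⟨⟨(o, 1), Reachable.refl _⟩⟩
  refine ⟨fun z w => ?_⟩
  exact (key z.1 z.2 z.2).symm.trans (key w.1 w.2 w.2)

end

end Run7.h909.TD
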