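import Pool.Agent.Run7.h909.TD.Colim2
import Pool.Agent.Y529.FJ.Ext

/-!
# Cocompact actions with virtually cyclic stabilizers
-/

set_option autoImplicit false

namespace Run7.h909.TD

open SimpleGraph
open Pool.Agent.Y110.FJ (ClosedE)
open Pool.Agent.Y462.SS (Closed)

/-- the homomorphism to the integers with a given kernel -/
theorem kap {G : Type} [Group G] (N : Subgroup G) [N.Normal] (g : G)
    (hg : ∀ n : ℕ, 0 < n → g ^ n ∉ N) :
    ∃ κ : ↥(N ⊔ Subgroup.zpowers g) →* Multiplicative ℤ, ∀ h, κ h = 1 ↔ (h : G) ∈ N := by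
  let a : G ⧸ N := QuotientGroup.mk' N g
  let ψ : Multiplicative ℤ →* G ⧸ N := zpowersHom _ a
  have hψ : Function.Injective ψ := by
    refine (injective_iff_map_eq_one ψ).2 fun n hn => ?_
    have h1 : a ^ (Multiplicative.toAdd n) = 1 := hn
    by_contra hne
    have hne' : Multiplicative.toAdd n ≠ 0 := fun h => hne (by
      apply Multiplicative.toAdd.injective
      exact h)
    have h2 : a ^ (Multiplicative.toAdd n).natAbs = 1 := by
      rcases Int.natAbs_eq (Multiplicative.toAdd n) with h | h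
      · rw [h, zpow_natCast] at h1
        exact h1
      · rw [h, zpow_neg, zpow_natCast, inv_eq_one] at h1
        exact h1
    refine hg _ (Int.natAbs_pos.2 hne') ?_
    have h3 : QuotientGroup.mk' N (g ^ (Multiplicative.toAdd n).natAbs) = 1 := by
      rw [map_pow]
      exact h2
    exact (QuotientGroup.eq_one_iff _).1 h3
  have hmem : ∀ h : ↥(N ⊔ Subgroup.zpowers g), QuotientGroup.mk' N (h : G) ∈ ψ.range := by
    intro h
    have h1 : N ⊔ Subgroup.zpowers g ≤ ψ.range.comap (QuotientGroup.mk' N) := by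
      refine sup_le ?_ ?_
      · intro x hx
        refine ⟨1, ?_⟩
        rw [map_one]
        exact ((QuotientGroup.eq_one_iff x).2 hx).symm
      · rw [Subgroup.zpowers_le]
        exact ⟨Multiplicative.ofAdd 1, by simp [ψ, a]⟩
    exact h1 h.2
  let κ : ↥(N ⊔ Subgroup.zpowers g) →* Multiplicative ℤ :=
    (MonoidHom.ofInjective hψ).symm.toMonoidHom.comp
      (((QuotientGroup.mk' N).comp (Subgroup.subtype _)).codRestrict ψ.range hmem)
  refine ⟨κ, fun h => ?_⟩
  have h1 : κ h = 1 ↔ (((QuotientGroup.mk' N).comp (Subgroup.subtype _)).codRestrict ψ.range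
      hmem) h = 1 := (MulEquiv.map_eq_one_iff (MonoidHom.ofInjective hψ).symm)
  rw [h1]
  constructor
  · intro h2
    have h3 := congrArg Subtype.val h2
    exact (QuotientGroup.eq_one_iff _).1 h3
  · intro h2
    apply Subtype.ext
    exact (QuotientGroup.eq_one_iff _).2 h2

section

variable {G V : Type} [Group G] [MulAction G V]

theorem zpow_fix {g : G} {x : V} (h : g • x = x) (n : ℤ) : g ^ n • x = x :=
  (MulAction.stabilizer G x).zpow_mem (show g ∈ MulAction.stabilizer G x from h) n

theorem pow_fix {g : G} {x : V} (h : g • x = x) (n : ℕ) : g ^ n • x = x :=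
  (MulAction.stabilizer G x).pow_mem (show g ∈ MulAction.stabilizer G x from h) n

theorem mul_fix {g h : G} {x : V} (hg : g • x = x) (hh : h • x = x) : (g * h) • x = x := by
  rw [mul_smul, hh, hg]

theorem inv_fix {g : G} {x : V} (hg : g • x = x) : g⁻¹ • x = x := by
  rw [inv_smul_eq_iff, hg]

/-- the value of a homomorphism to the integers -/
def vl (f : G →* Multiplicative ℤ) (g : G) : ℤ := Multiplicative.toAdd (f g)

variable (f : G →* Multiplicative ℤ)

theorem vl_mul (g h : G) : vl f (g * h) = vl f g + vl f h := by simp [vl]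

theorem vl_inv (g : G) : vl f g⁻¹ = - vl f g := by simp [vl]

theorem vl_zpow (g : G) (n : ℤ) : vl f (g ^ n) = n * vl f g := by simp [vl]

theorem vl_pow (g : G) (n : ℕ) : vl f (g ^ n) = n * vl f g := by simp [vl]

theorem vl_conj (g h : G) : vl f (g * h * g⁻¹) = vl f h := by
  rw [vl_mul, vl_mul, vl_inv]
  ring

theorem vl_eq_zero (g : G) : vl f g = 0 ↔ f g = 1 := by
  constructor
  · intro h
    exact Multiplicative.toAdd.injective h
  · intro h
    rw [vl, h]
    rfl

/-- the elements of a fibre -/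
theorem fib_fin {x : V} (hk : {g : G | g • x = x ∧ f g = 1}.Finite) (j : ℤ) :
    {g : G | g • x = x ∧ vl f g = j}.Finite := by
  by_cases he : ∃ w : G, w • x = x ∧ vl f w = j
  · obtain ⟨w, hw, hwj⟩ := he
    refine Set.Finite.of_finite_image (f := fun u => w⁻¹ * u) (hk.subset ?_) ?_
    · rintro _ ⟨u, ⟨hu, huj⟩, rfl⟩
      refine ⟨mul_fix (inv_fix hw) hu, ?_⟩
      rw [← vl_eq_zero, vl_mul, vl_inv, hwj, huj]
      ring
    · intro u _ v _ h
      exact mul_left_cancel h
  · refine Set.Finite.subset Set.finite_empty fun g hg => ?_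
    exact he ⟨g, hg⟩

/-- finitely many representatives -/
theorem rep_fin {x : V} (hk : {g : G | g • x = x ∧ f g = 1}.Finite) {c : G} (hc : c • x = x)
    (hfc : vl f c ≠ 0) : ∃ R : Set G, R.Finite ∧ (∀ u ∈ R, u • x = x) ∧
      ∀ g : G, g • x = x → ∃ u ∈ R, ∃ n : ℤ, g = u * c ^ n := by
  refine ⟨⋃ j ∈ Finset.range (vl f c).natAbs, {g : G | g • x = x ∧ vl f g = (j : ℕ)},
    Set.Finite.biUnion (Finset.finite_toSet _) fun j _ => fib_fin f hk j, ?_, ?_⟩
  · intro u hu
    simp only [Set.mem_iUnion] at hu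
    obtain ⟨j, _, hu⟩ := hu
    exact hu.1
  · intro g hg
    refine ⟨g * c ^ (-(vl f g / vl f c)), ?_, vl f g / vl f c, ?_⟩
    · have h1 := Int.emod_nonneg (vl f g) hfc
      have h2 := Int.emod_lt_abs (vl f g) hfc
      rw [Int.abs_eq_natAbs] at h2
      have h3 : vl f (g * c ^ (-(vl f g / vl f c))) = vl f g % vl f c := by
        rw [vl_mul, vl_zpow]
        have := Int.emod_add_mul_ediv (vl f g) (vl f c)
        linarith
      simp only [Set.mem_iUnion]
      refine ⟨(vl f g % vl f c).toNat, Finset.mem_range.2 (by omega),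
        mul_fix hg (zpow_fix hc _), ?_⟩
      rw [h3, Int.toNat_of_nonneg h1]
    · rw [mul_assoc, ← zpow_add, neg_add_cancel, zpow_zero, mul_one]

/-- two elements with the same value have a common power -/
theorem com_pow {x : V} (hk : {g : G | g • x = x ∧ f g = 1}.Finite) :
    ∃ n : ℕ, 0 < n ∧ ∀ u v : G, u • x = x → v • x = x → vl f u = vl f v → u ^ n = v ^ n := by
  classical
  obtain ⟨K, hK⟩ := hk.exists_finset_coe
  refine ⟨(K.card).factorial, Nat.factorial_pos _, fun u v hu hv huv => ?_⟩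
  have h1 : ∀ j ∈ Finset.range (K.card + 1), (u ^ j)⁻¹ * v ^ j ∈ K := by
    intro j _
    rw [← Finset.mem_coe, hK]
    refine ⟨mul_fix (inv_fix (pow_fix hu j)) (pow_fix hv j), ?_⟩
    rw [← vl_eq_zero, vl_mul, vl_inv, vl_pow, vl_pow, huv]
    ring
  obtain ⟨i, hi, j, hj, hij, he⟩ := Finset.exists_ne_map_eq_of_card_lt_of_maps_to
    (by simp) h1
  have key : ∀ i j : ℕ, i < j → j ≤ K.card → (u ^ i)⁻¹ * v ^ i = (u ^ j)⁻¹ * v ^ j →
      u ^ (K.card).factorial = v ^ (K.card).factorial := by
    intro i j hij hj he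
    have h2 : u ^ (j - i) = v ^ (j - i) := by
      have e1 : u ^ j = u ^ (j - i) * u ^ i := by rw [← pow_add]; congr 1; omega
      have e2 : v ^ j = v ^ (j - i) * v ^ i := by rw [← pow_add]; congr 1; omega
      have e3 : u ^ j * ((u ^ i)⁻¹ * v ^ i) = v ^ j := by
        rw [he, mul_inv_cancel_left]
      rw [e1, mul_assoc, mul_inv_cancel_left, e2] at e3
      exact mul_right_cancel e3
    obtain ⟨t, ht⟩ : j - i ∣ (K.card).factorial := Nat.dvd_factorial (by omega) (by omega)
    rw [ht, pow_mul, pow_mul, h2]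
  rw [Finset.mem_range] at hi hj
  rcases lt_or_gt_of_ne hij with h | h
  · exact key i j h (by omega) he
  · exact key j i h (by omega) he.symm

end

end Run7.h909.TD
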