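import Pool.Agent.Run7.h909.TD.Cyc

/-!
# Cocompact actions with virtually cyclic stabilizers: the theorem
-/

set_option autoImplicit false

namespace Run7.h909.TD

open SimpleGraph
open Pool.Agent.Y110.FJ (ClosedE)
open Pool.Agent.Y462.SS (Closed)

section

variable {G V : Type} [Group G] [MulAction G V] (f : G →* Multiplicative ℤ)

/-- a common value on finitely many sets -/
theorem com_val {ι : Type} (E : Finset ι) (P : ι → Subgroup G)
    (h : ∀ e ∈ E, ∃ u ∈ P e, vl f u ≠ 0) :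
    ∃ M : ℤ, M ≠ 0 ∧ ∀ e ∈ E, ∃ u ∈ P e, vl f u = M := by
  classical
  induction E using Finset.induction_on with
  | empty => exact ⟨1, one_ne_zero, fun e he => absurd he (Finset.notMem_empty _)⟩
  | insert a E _ ih =>
    obtain ⟨M, hM, hM'⟩ := ih fun e he => h e (Finset.mem_insert_of_mem he)
    obtain ⟨u, hu, hfu⟩ := h a (Finset.mem_insert_self _ _)
    refine ⟨M * vl f u, mul_ne_zero hM hfu, fun e he => ?_⟩
    rcases Finset.mem_insert.1 he with rfl | he
    · exact ⟨u ^ M, (P e).zpow_mem hu _, vl_zpow f u M⟩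
    · obtain ⟨w, hw, hfw⟩ := hM' e he
      refine ⟨w ^ (vl f u), (P e).zpow_mem hw _, ?_⟩
      rw [vl_zpow, hfw, mul_comm]

variable {T : SimpleGraph V} {F : Set (ℤ → V)}

/-- the element which fixes all vertices -/
theorem exists_central (hA : Ac G T F) (hcon : T.Connected)
    (hlf : ∀ x, {y | T.Adj x y}.Finite)
    (hB : ∃ B : Set V, B.Finite ∧ ∀ x : V, ∃ g : G, g • x ∈ B)
    (hk : ∀ x : V, {g : G | g • x = x ∧ f g = 1}.Finite)
    (hpow : ∀ x y, T.Adj x y → ∀ g : G, g • x = x → ∃ n : ℕ, 0 < n ∧ g ^ n • y = y)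
    (hex : ∃ (x : V) (g : G), g • x = x ∧ vl f g ≠ 0) :
    ∃ c : G, (∀ x : V, c • x = x) ∧ (∀ g : G, g * c * g⁻¹ = c) ∧ vl f c ≠ 0 := by
  classical
  obtain ⟨B, hBf, hB⟩ := hB
  -- all stabilizers
  have hall : ∀ x : V, ∃ g : G, g • x = x ∧ vl f g ≠ 0 := by
    obtain ⟨x0, g0, h0, h1⟩ := hex
    intro x
    have hr := hcon.preconnected x0 x
    rw [reachable_iff_reflTransGen] at hr
    induction hr with
    | refl => exact ⟨g0, h0, h1⟩
    | tail _ hbc ih =>
      obtain ⟨g, hg, hfg⟩ := ih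
      obtain ⟨n, hn, hgn⟩ := hpow _ _ hbc g hg
      refine ⟨g ^ n, hgn, ?_⟩
      rw [vl_pow]
      exact mul_ne_zero (by exact_mod_cast hn.ne') hfg
  -- pairs
  have hpair : ∀ x y : V, (x = y ∨ T.Adj x y) →
      ∃ u : G, u • x = x ∧ u • y = y ∧ vl f u ≠ 0 := by
    rintro x y (rfl | hxy)
    · obtain ⟨g, hg, hfg⟩ := hall x
      exact ⟨g, hg, hg, hfg⟩
    · obtain ⟨g, hg, hfg⟩ := hall x
      obtain ⟨n, hn, hgn⟩ := hpow _ _ hxy g hg
      refine ⟨g ^ n, pow_fix hg n, hgn, ?_⟩
      rw [vl_pow]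
      exact mul_ne_zero (by exact_mod_cast hn.ne') hfg
  have hEfin : {e : V × V | e.1 ∈ B ∧ (e.1 = e.2 ∨ T.Adj e.1 e.2)}.Finite := by
    refine Set.Finite.subset (s := ⋃ b ∈ B, (fun y => (b, y)) '' ({b} ∪ {y | T.Adj b y})) ?_ ?_
    · exact Set.Finite.biUnion hBf fun b _ => ((Set.finite_singleton b).union (hlf b)).image _
    · rintro ⟨b, y⟩ ⟨hb, h⟩
      simp only [Set.mem_iUnion]
      refine ⟨b, hb, y, ?_, rfl⟩
      rcases h with h | h
      · exact Or.inl h.symm
      · exact Or.inr h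
  obtain ⟨E, hE⟩ := hEfin.exists_finset_coe
  obtain ⟨M, hM, hM'⟩ := com_val f E
    (fun e => MulAction.stabilizer G e.1 ⊓ MulAction.stabilizer G e.2) (by
      intro e he
      have he' : e ∈ {e : V × V | e.1 ∈ B ∧ (e.1 = e.2 ∨ T.Adj e.1 e.2)} := by
        rw [← hE]
        exact he
      obtain ⟨u, h1, h2, h3⟩ := hpair e.1 e.2 he'.2
      exact ⟨u, ⟨h1, h2⟩, h3⟩)
  have hstar : ∀ x y : V, (x = y ∨ T.Adj x y) →
      ∃ u : G, u • x = x ∧ u • y = y ∧ vl f u = M := by
    intro x y hxy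
    obtain ⟨g, hg⟩ := hB x
    have he : (g • x, g • y) ∈ E := by
      rw [← Finset.mem_coe, hE]
      refine ⟨hg, ?_⟩
      rcases hxy with rfl | h
      · exact Or.inl rfl
      · exact Or.inr (hA.adj g _ _ h)
    obtain ⟨u, ⟨h1, h2⟩, h3⟩ := hM' _ he
    have h1' : u • g • x = g • x := h1
    have h2' : u • g • y = g • y := h2
    refine ⟨g⁻¹ * u * g, ?_, ?_, ?_⟩
    · rw [mul_smul, mul_smul, h1', inv_smul_smul]
    · rw [mul_smul, mul_smul, h2', inv_smul_smul]
    · have := vl_conj f g⁻¹ u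
      rw [inv_inv] at this
      rw [this, h3]
  -- common powers
  have hn0 : ∃ N : ℕ, 0 < N ∧ ∀ x : V, ∀ u v : G, u • x = x → v • x = x → vl f u = vl f v →
      u ^ N = v ^ N := by
    obtain ⟨B', hB'⟩ := hBf.exists_finset_coe
    have h1 : ∃ N : ℕ, 0 < N ∧ ∀ x ∈ B', ∀ u v : G, u • x = x → v • x = x → vl f u = vl f v →
        u ^ N = v ^ N := by
      clear hB'
      induction B' using Finset.induction_on with
      | empty => exact ⟨1, one_pos, fun e he => absurd he (Finset.notMem_empty _)⟩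
      | insert a E _ ih =>
        obtain ⟨N, hN, hN'⟩ := ih
        obtain ⟨n, hn, hn'⟩ := com_pow f (hk a)
        refine ⟨N * n, Nat.mul_pos hN hn, fun e he u v hu hv huv => ?_⟩
        rcases Finset.mem_insert.1 he with rfl | he
        · rw [mul_comm, pow_mul, pow_mul, hn' u v hu hv huv]
        · rw [pow_mul, pow_mul, hN' e he u v hu hv huv]
    obtain ⟨N, hN, hN'⟩ := h1
    refine ⟨N, hN, fun x u v hu hv huv => ?_⟩
    obtain ⟨g, hg⟩ := hB x
    have hg' : g • x ∈ B' := by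
      rw [← Finset.mem_coe, hB']
      exact hg
    have h2 := hN' (g • x) hg' (g * u * g⁻¹) (g * v * g⁻¹)
      (by rw [mul_smul, mul_smul, inv_smul_smul, hu]) (by rw [mul_smul, mul_smul,
        inv_smul_smul, hv]) (by rw [vl_conj, vl_conj, huv])
    rw [conj_pow, conj_pow] at h2
    exact mul_left_cancel (mul_right_cancel h2)
  obtain ⟨N, hN, hN'⟩ := hn0
  obtain ⟨x0⟩ := hcon.nonempty
  obtain ⟨u0, h01, -, h02⟩ := hstar x0 x0 (Or.inl rfl)
  have hP : ∀ x : V, ∀ u : G, u • x = x → vl f u = M → u ^ N = u0 ^ N := by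
    intro x
    have hr := hcon.preconnected x0 x
    rw [reachable_iff_reflTransGen] at hr
    induction hr with
    | refl =>
      intro u hu hfu
      exact hN' x0 u u0 hu h01 (hfu.trans h02.symm)
    | @tail b d _ hbc ih =>
      intro v hv hfv
      obtain ⟨u, hu1, hu2, hu3⟩ := hstar b d (Or.inr hbc)
      rw [← ih u hu1 hu3]
      exact hN' d v u hv hu2 (hfv.trans hu3.symm)
  refine ⟨u0 ^ N, fun x => ?_, fun g => ?_, ?_⟩
  · obtain ⟨u, hu, -, hfu⟩ := hstar x x (Or.inl rfl)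
    rw [← hP x u hu hfu]
    exact pow_fix hu N
  · have h1 := hP (g • x0) (g * u0 * g⁻¹) (by rw [mul_smul, mul_smul, inv_smul_smul, h01])
      (by rw [vl_conj, h02])
    rw [← conj_pow, h1]
  · rw [vl_pow, h02]
    exact mul_ne_zero (by exact_mod_cast hN.ne') hM

/-- **cocompact actions with virtually cyclic stabilizers** -/
theorem thmZ {C : ∀ (G : Type) [Group G], Prop} (hC : ClosedE C) (hcat : CatC C)
    {ℓ : V → V → ℝ} {w : (ℤ → V) → ℝ} (hx : Cx T F ℓ w) (hs : SC T F) (hA : Ac G T F)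
    (hM : Mi G T F ℓ w)
    (hlf : ∀ x, {y | T.Adj x y}.Finite)
    (hB : ∃ B : Set V, B.Finite ∧ ∀ x : V, ∃ g : G, g • x ∈ B)
    (hk : ∀ x : V, {g : G | g • x = x ∧ f g = 1}.Finite)
    (hpow : ∀ x y, T.Adj x y → ∀ g : G, g • x = x → ∃ n : ℕ, 0 < n ∧ g ^ n • y = y) : C G := by
  by_cases hex : ∃ (x : V) (g : G), g • x = x ∧ vl f g ≠ 0
  · obtain ⟨c, hc1, hc2, hc3⟩ := exists_central f hA hs.1 hlf hB hk hpow hex
    let N : Subgroup G := Subgroup.zpowers c
    have hcomm : ∀ g : G, g * c = c * g := fun g => by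
      have := hc2 g
      rw [mul_inv_eq_iff_eq_mul] at this
      exact this
    have hcent : ∀ g : G, ∀ n ∈ N, g * n * g⁻¹ = n := by
      rintro g _ ⟨k, rfl⟩
      show g * c ^ k * g⁻¹ = c ^ k
      rw [← conj_zpow, hc2]
    have hN : N.Normal := ⟨fun n hn g => by rw [hcent g n hn]; exact hn⟩
    have hNfix : ∀ n ∈ N, ∀ x : V, n • x = x := by
      rintro _ ⟨k, rfl⟩ x
      exact zpow_fix (hc1 x) k
    have hNinj : ∀ n ∈ N, f n = 1 → n = 1 := by
      rintro _ ⟨k, rfl⟩ h
      have h1 : vl f (c ^ k) = 0 := (vl_eq_zero f _).2 h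
      rw [vl_zpow] at h1
      have h2 : k = 0 := (mul_eq_zero.1 h1).resolve_right hc3
      show c ^ k = 1
      rw [h2, zpow_zero]
    -- the quotient
    have hlift : ∀ n ∈ N, MulAction.toPermHom G V n = 1 := by
      intro n hn
      ext x
      exact hNfix n hn x
    letI act : MulAction (G ⧸ N) V := MulAction.compHom V (QuotientGroup.lift N _ hlift)
    have hact : ∀ (g : G) (x : V), (QuotientGroup.mk' N g) • x = g • x := fun g x => rfl
    have hCQ : C (G ⧸ N) := by
      refine hcat (G ⧸ N) V T F ℓ w hx hs ⟨?_, ?_⟩ ⟨?_, ?_⟩ hlf ?_ ?_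
      · intro g x y h
        obtain ⟨g, rfl⟩ := QuotientGroup.mk'_surjective N g
        rw [hact, hact]
        exact hA.adj g x y h
      · intro g φ hφ
        obtain ⟨g, rfl⟩ := QuotientGroup.mk'_surjective N g
        simp only [hact]
        exact hA.face g φ hφ
      · intro g x y h
        obtain ⟨g, rfl⟩ := QuotientGroup.mk'_surjective N g
        rw [hact, hact]
        exact hM.len g x y h
      · intro g φ hφ
        obtain ⟨g, rfl⟩ := QuotientGroup.mk'_surjective N g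
        simp only [hact]
        exact hM.ang g φ hφ
      · intro x
        obtain ⟨R, hR, hR1, hR2⟩ := rep_fin f (hk x) (hc1 x) hc3
        have : ((MulAction.stabilizer (G ⧸ N) x : Subgroup (G ⧸ N)) : Set (G ⧸ N)).Finite := by
          refine (hR.image (QuotientGroup.mk' N)).subset ?_
          intro g hg
          obtain ⟨g, rfl⟩ := QuotientGroup.mk'_surjective N g
          have hg' : g • x = x := hg
          obtain ⟨u, hu, n, rfl⟩ := hR2 g hg'
          refine ⟨u, hu, ?_⟩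
          rw [map_mul]
          have : QuotientGroup.mk' N (c ^ n) = 1 := (QuotientGroup.eq_one_iff _).2 ⟨n, rfl⟩
          rw [this, mul_one]
        exact this.to_subtype
      · obtain ⟨B, hB1, hB2⟩ := hB
        refine ⟨B, hB1, fun x => ?_⟩
        obtain ⟨g, hg⟩ := hB2 x
        exact ⟨QuotientGroup.mk' N g, hg⟩
    have hCN : C N := by
      refine hC.base.of_injective N (Multiplicative ℤ) (f.comp N.subtype) ?_ hC.base.int
      refine (injective_iff_map_eq_one _).2 fun n hn => ?_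
      exact Subtype.ext (hNinj n n.2 hn)
    refine Pool.Agent.Y529.FJ.t_ext C hC G N hCN hCQ ?_
    intro g hg
    obtain ⟨κ, hκ⟩ := kap N g hg
    refine hC.base.of_injective _ (Multiplicative ℤ × Multiplicative ℤ)
      ((f.comp (Subgroup.subtype _)).prod κ) ?_ (hC.base.prod _ _ hC.base.int hC.base.int)
    refine (injective_iff_map_eq_one _).2 fun h hh => ?_
    have h1 : κ h = 1 := congrArg Prod.snd hh
    have h2 : f (h : G) = 1 := congrArg Prod.fst hh
    exact Subtype.ext (hNinj h ((hκ h).1 h1) h2)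
  · push Not at hex
    refine hcat G V T F ℓ w hx hs hA hM hlf ?_ hB
    intro x
    have : ((MulAction.stabilizer G x : Subgroup G) : Set G).Finite := by
      refine (hk x).subset fun g hg => ?_
      exact ⟨hg, (vl_eq_zero f g).1 (hex x g hg)⟩
    exact this.to_subtype

end

end Run7.h909.TD
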