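import Pool.Agent.Y110.FJ.Stm

/-!
# Complexes of dimension two: definitions

A complex is given by a graph `T` on the set `V` of vertices and by a set `F` of faces, the embedded
closed edge paths along which a polygon is glued in. A closed path of length `n` is described by an
`n`-periodic function `ℤ → V`; the function `i ↦ φ (i + k)` describes the same path with another base
vertex, and `i ↦ φ (-i)` the path with the opposite direction.
-/

set_option autoImplicit false

namespace Run7.h909.TD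

/-- `φ` is periodic with period `n` and takes different values at different integers modulo `n` -/
def Per {V : Type} (φ : ℤ → V) (n : ℕ) : Prop := ∀ i j : ℤ, φ i = φ j ↔ (n : ℤ) ∣ i - j

/-- the product `c (φ 0) (φ 1) * ... * c (φ (n - 1)) (φ n)` -/
def wrap {V L : Type} [Group L] (c : V → V → L) (φ : ℤ → V) (n : ℕ) : L :=
  ((List.range n).map fun k : ℕ => c (φ k) (φ (k + 1))).prod

/-- The function `θ` gives the directions of the edges of a convex Euclidean polygon with `n` sides whose
consecutive side lengths are `ℓ (φ k) (φ (k + 1))` and whose angles are the values `w` at the shifted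
paths: the direction changes by `π` minus the angle, the total change is `2 π`, and the polygon
closes up. -/
def Polygon {V : Type} (ℓ : V → V → ℝ) (w : (ℤ → V) → ℝ) (φ : ℤ → V) (n : ℕ) : Prop :=
  ∃ θ : ℤ → ℝ, (∀ k : ℤ, θ (k + 1) = θ k + (Real.pi - w fun i => φ (i + (k + 1)))) ∧
    θ n = θ 0 + 2 * Real.pi ∧
    ∑ k ∈ Finset.range n, (ℓ (φ k) (φ (k + 1)) : ℂ) * Complex.exp (θ k * Complex.I) = 0

/-- The graph `T` and the polygons glued in along the closed paths in `F` are a piecewise Euclidean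
complex of nonpositive curvature. The edge `{x, y}` has the length `ℓ x y`; the face `φ` has the angle
`w φ` at the vertex `φ 0`, the angle between the edges to `φ (-1)` and `φ 1`. A face is an embedded closed
path of length at least `3`, and a convex Euclidean polygon. Two faces with a common corner are equal,
and each cycle in the link of a vertex `b` (different neighbours `a i` of `b`, where `i` is an integer
modulo `k`, such that there is a face with a corner at `b` between `a i` and `a (i + 1)`) has a length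
of at least `2 π`. -/
structure Cx {V : Type} (T : SimpleGraph V) (F : Set (ℤ → V)) (ℓ : V → V → ℝ)
    (w : (ℤ → V) → ℝ) : Prop where
  adj : ∀ φ ∈ F, ∀ i : ℤ, T.Adj (φ i) (φ (i + 1))
  per : ∀ φ ∈ F, ∃ n : ℕ, 3 ≤ n ∧ Per φ n
  shift : ∀ φ ∈ F, ∀ k : ℤ, (fun i => φ (i + k)) ∈ F
  refl : ∀ φ ∈ F, (fun i => φ (-i)) ∈ F
  len : ∀ x y, T.Adj x y → 0 < ℓ x y ∧ ℓ x y = ℓ y x
  ang : ∀ φ ∈ F, 0 < w φ ∧ w φ < Real.pi ∧ (w fun i => φ (-i)) = w φ
  poly : ∀ φ ∈ F, ∀ n : ℕ, Per φ n → Polygon ℓ w φ n
  corner : ∀ φ ∈ F, ∀ ψ ∈ F, φ 0 = ψ 0 → φ 1 = ψ 1 → φ (-1) = ψ (-1) → φ = ψ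
  link : ∀ (b : V) (k : ℕ), 3 ≤ k → ∀ a : ℤ → V, Per a k → ∀ ψ : ℤ → ℤ → V,
    (∀ i : ℤ, ψ i ∈ F ∧ ψ i 0 = b ∧ ψ i (-1) = a i ∧ ψ i 1 = a (i + 1)) →
    2 * Real.pi ≤ ∑ i ∈ Finset.range k, w (ψ i)

/-- the function `c` on the edges is a cocycle with values in the group `L` -/
structure Coc {V : Type} (T : SimpleGraph V) (F : Set (ℤ → V)) {L : Type} [Group L]
    (c : V → V → L) : Prop where
  inv : ∀ x y, T.Adj x y → c x y * c y x = 1
  face : ∀ φ ∈ F, ∀ n : ℕ, Per φ n → wrap c φ n = 1

/-- The complex is connected and simply connected: each cocycle with values in a group is the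
coboundary of a function on the vertices. -/
def SC {V : Type} (T : SimpleGraph V) (F : Set (ℤ → V)) : Prop :=
  T.Connected ∧ ∀ (L : Type) [Group L] (c : V → V → L), Coc T F c →
    ∃ f : V → L, ∀ x y, T.Adj x y → c x y = (f x)⁻¹ * f y

/-- `G` acts on the complex -/
structure Ac (G : Type) [Group G] {V : Type} [MulAction G V] (T : SimpleGraph V)
    (F : Set (ℤ → V)) : Prop where
  adj : ∀ (g : G) (x y : V), T.Adj x y → T.Adj (g • x) (g • y)
  face : ∀ (g : G), ∀ φ ∈ F, (fun i => g • φ i) ∈ F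

/-- `G` preserves the lengths of the edges and the angles of the faces -/
structure Mi (G : Type) [Group G] {V : Type} [MulAction G V] (T : SimpleGraph V)
    (F : Set (ℤ → V)) (ℓ : V → V → ℝ) (w : (ℤ → V) → ℝ) : Prop where
  len : ∀ (g : G) (x y : V), T.Adj x y → ℓ (g • x) (g • y) = ℓ x y
  ang : ∀ (g : G), ∀ φ ∈ F, (w fun i => g • φ i) = w φ

/-- `C` contains the groups which act properly and cocompactly by isometries on a simply connected
locally finite piecewise Euclidean complex of dimension two and of nonpositive curvature. -/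
def CatC (C : ∀ (G : Type) [Group G], Prop) : Prop :=
  ∀ (G V : Type) [Group G] [MulAction G V] (T : SimpleGraph V) (F : Set (ℤ → V))
    (ℓ : V → V → ℝ) (w : (ℤ → V) → ℝ),
    Cx T F ℓ w → SC T F → Ac G T F → Mi G T F ℓ w → (∀ x, {y | T.Adj x y}.Finite) →
    (∀ x : V, Finite (MulAction.stabilizer G x)) →
    (∃ B : Set V, B.Finite ∧ ∀ x : V, ∃ g : G, g • x ∈ B) → C G

/-! ### elementary lemmas -/

section

variable {V L : Type} [Group L]

theorem wrap_zero (c : V → V → L) (φ : ℤ → V) : wrap c φ 0 = 1 := rfl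

theorem wrap_succ (c : V → V → L) (φ : ℤ → V) (n : ℕ) :
    wrap c φ (n + 1) = wrap c φ n * c (φ n) (φ (n + 1)) := by
  unfold wrap
  rw [List.range_succ, List.map_append, List.prod_append]
  simp

theorem wrap_map {M : Type} [Group M] (f : L →* M) (c : V → V → L) (φ : ℤ → V) (n : ℕ) :
    f (wrap c φ n) = wrap (fun x y => f (c x y)) φ n := by
  induction n with
  | zero => exact map_one f
  | succ n ih => rw [wrap_succ, map_mul, ih, wrap_succ]

theorem wrap_congr {c c' : V → V → L} {φ : ℤ → V} (n : ℕ)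
    (h : ∀ i : ℤ, c (φ i) (φ (i + 1)) = c' (φ i) (φ (i + 1))) : wrap c φ n = wrap c' φ n := by
  induction n with
  | zero => rfl
  | succ n ih => rw [wrap_succ, ih, h n, wrap_succ]

theorem wrap_cob {c : V → V → L} {φ : ℤ → V} (f : V → L)
    (h : ∀ i : ℤ, c (φ i) (φ (i + 1)) = (f (φ i))⁻¹ * f (φ (i + 1))) (n : ℕ) :
    wrap c φ n = (f (φ 0))⁻¹ * f (φ n) := by
  induction n with
  | zero => simp [wrap_zero]
  | succ n ih =>
    rw [wrap_succ, ih, h n]
    push_cast
    group

theorem Per.eq {φ : ℤ → V} {n : ℕ} (h : Per φ n) (i : ℤ) : φ (i + n) = φ i :=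
  (h _ _).2 ⟨1, by ring⟩

theorem Per.eq_mod {φ : ℤ → V} {n : ℕ} (h : Per φ n) (i : ℤ) : φ (i % n) = φ i :=
  (h _ _).2 (by
    refine ⟨-(i / n), ?_⟩
    have := Int.emod_add_mul_ediv i n
    linarith)

theorem Per.shift {φ : ℤ → V} {n : ℕ} (h : Per φ n) (k : ℤ) : Per (fun i => φ (i + k)) n := by
  intro i j
  show φ (i + k) = φ (j + k) ↔ _
  rw [h]
  have : i + k - (j + k) = i - j := by ring
  rw [this]

theorem Per.refl {φ : ℤ → V} {n : ℕ} (h : Per φ n) : Per (fun i => φ (-i)) n := by
  intro i j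
  show φ (-i) = φ (-j) ↔ _
  rw [h]
  have : -i - -j = -(i - j) := by ring
  rw [this, dvd_neg]

theorem Per.unique {φ : ℤ → V} {n m : ℕ} (h : Per φ n) (h' : Per φ m) : n = m := by
  have h1 : (n : ℤ) ∣ m := by
    have := (h m 0).1 ((h' m 0).2 (by simp))
    simpa using this
  have h2 : (m : ℤ) ∣ n := by
    have := (h' n 0).1 ((h n 0).2 (by simp))
    simpa using this
  exact Nat.dvd_antisymm (Int.natCast_dvd_natCast.1 h1) (Int.natCast_dvd_natCast.1 h2)

theorem Per.comp {W : Type} {φ : ℤ → V} {n : ℕ} (f : V → W)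
    (hf : ∀ i j : ℤ, f (φ i) = f (φ j) → φ i = φ j) (h : Per φ n) : Per (fun i => f (φ i)) n := by
  intro i j
  refine ⟨fun h1 => (h i j).1 (hf i j h1), fun h1 => congrArg f ((h i j).2 h1)⟩

end

end Run7.h909.TD
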