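import Pool.Agent.Run7.h909.TD.Sc

/-!
# The group acting on the universal cover
-/

set_option autoImplicit false

namespace Run7.h909.TD

open SimpleGraph

section

variable {V H : Type} [Group H] [MulAction H V] {S : SimpleGraph V} {Φ : Set (ℤ → V)}

theorem coc_sh (hA : Ac H S Φ) (h : H) : Coc S Φ (fun x y => ed S Φ (h • x) (h • y)) := by
  constructor
  · intro x y hxy
    exact coc_ed.inv _ _ (hA.adj h x y hxy)
  · intro φ hφ n hn
    exact coc_ed.face _ (hA.face h φ hφ) n (Per.comp (fun x => h • x)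
      (fun i j hij => smul_left_cancel h hij) hn)

/-- the endomorphism of the edge group given by `h` -/
def sh (hA : Ac H S Φ) (h : H) : PG S Φ →* PG S Φ := liftC (coc_sh hA h)

theorem sh_ed (hA : Ac H S Φ) (h : H) (x y : V) :
    sh hA h (ed S Φ x y) = ed S Φ (h • x) (h • y) := liftC_ed (coc_sh hA h) x y

theorem pg_ext {M : Type} [Group M] {f g : PG S Φ →* M}
    (h : ∀ x y, f (ed S Φ x y) = g (ed S Φ x y)) : f = g :=
  PresentedGroup.ext fun p => h p.1 p.2

theorem sh_mul (hA : Ac H S Φ) (g h : H) : sh hA (g * h) = (sh hA g).comp (sh hA h) :=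
  pg_ext fun x y => by
    rw [sh_ed, MonoidHom.comp_apply, sh_ed, sh_ed, mul_smul, mul_smul]

theorem sh_one (hA : Ac H S Φ) : sh hA 1 = MonoidHom.id _ :=
  pg_ext fun x y => by
    rw [sh_ed, one_smul, one_smul]
    rfl

/-- the action on the edge group -/
def al (hA : Ac H S Φ) : H →* MulAut (PG S Φ) where
  toFun h :=
    { toFun := sh hA h
      invFun := sh hA h⁻¹
      left_inv := fun π => by
        rw [← MonoidHom.comp_apply, ← sh_mul, inv_mul_cancel, sh_one]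
        rfl
      right_inv := fun π => by
        rw [← MonoidHom.comp_apply, ← sh_mul, mul_inv_cancel, sh_one]
        rfl
      map_mul' := map_mul _ }
  map_one' := by
    ext1 π
    show sh hA 1 π = π
    rw [sh_one]
    rfl
  map_mul' g h := by
    ext1 π
    show sh hA (g * h) π = sh hA g (sh hA h π)
    rw [sh_mul]
    rfl

theorem al_apply (hA : Ac H S Φ) (h : H) (π : PG S Φ) : al hA h π = sh hA h π := rfl

/-- the extension of `H` by the edge group -/
abbrev EG (hA : Ac H S Φ) : Type := PG S Φ ⋊[al hA] H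

instance actE (hA : Ac H S Φ) : MulAction (EG hA) (V × PG S Φ) where
  smul γ z := (γ.right • z.1, γ.left * sh hA γ.right z.2)
  one_smul z := by
    refine Prod.ext (one_smul _ _) ?_
    show 1 * sh hA 1 z.2 = z.2
    rw [one_mul, sh_one]
    rfl
  mul_smul γ δ z := by
    refine Prod.ext (mul_smul _ _ _) ?_
    show γ.left * sh hA γ.right δ.left * sh hA (γ.right * δ.right) z.2 =
      γ.left * sh hA γ.right (δ.left * sh hA δ.right z.2)
    rw [sh_mul, map_mul, mul_assoc]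
    rfl

theorem smul_fst (hA : Ac H S Φ) (γ : EG hA) (z : V × PG S Φ) : (γ • z).1 = γ.right • z.1 := rfl

theorem smul_snd (hA : Ac H S Φ) (γ : EG hA) (z : V × PG S Φ) :
    (γ • z).2 = γ.left * sh hA γ.right z.2 := rfl

theorem smul_adj (hA : Ac H S Φ) (γ : EG hA) {z w : V × PG S Φ} (h : (DG S Φ).Adj z w) :
    (DG S Φ).Adj (γ • z) (γ • w) := by
  refine ⟨hA.adj _ _ _ h.1, ?_⟩
  rw [smul_snd, smul_snd, smul_fst, smul_fst, h.2, map_mul, sh_ed, mul_assoc]

theorem smul_reach (hA : Ac H S Φ) (γ : EG hA) {z w : V × PG S Φ}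
    (h : (DG S Φ).Reachable z w) : (DG S Φ).Reachable (γ • z) (γ • w) := by
  rw [reachable_iff_reflTransGen] at h ⊢
  induction h with
  | refl => exact Relation.ReflTransGen.refl
  | tail _ hbc ih => exact ih.tail (smul_adj hA γ hbc)

/-- the group of the universal cover -/
def Gam (hA : Ac H S Φ) (o : V) : Subgroup (EG hA) where
  carrier := {γ | γ • ((o, 1) : V × PG S Φ) ∈ KS S Φ o}
  one_mem' := by
    show (1 : EG hA) • ((o, 1) : V × PG S Φ) ∈ KS S Φ o
    rw [one_smul]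
    exact Reachable.refl _
  mul_mem' := by
    intro γ δ (hγ : _ ∈ _) (hδ : _ ∈ _)
    show (γ * δ) • ((o, 1) : V × PG S Φ) ∈ KS S Φ o
    rw [mul_smul]
    exact Reachable.trans hγ (smul_reach hA γ hδ)
  inv_mem' := by
    intro γ (hγ : _ ∈ _)
    show γ⁻¹ • ((o, 1) : V × PG S Φ) ∈ KS S Φ o
    have h := (smul_reach hA γ⁻¹ hγ).symm
    rw [inv_smul_smul] at h
    exact h

theorem gam_smul (hA : Ac H S Φ) (o : V) {γ : EG hA} (hγ : γ ∈ Gam hA o) {z : V × PG S Φ}
    (hz : z ∈ KS S Φ o) : γ • z ∈ KS S Φ o :=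
  Reachable.trans (show (DG S Φ).Reachable _ _ from hγ) (smul_reach hA γ hz)

theorem gam_of (hA : Ac H S Φ) (o : V) {γ : EG hA} {z : V × PG S Φ}
    (hz : z ∈ KS S Φ o) (hz' : γ • z ∈ KS S Φ o) : γ ∈ Gam hA o :=
  Reachable.trans hz' (smul_reach hA γ hz).symm

instance actK (hA : Ac H S Φ) (o : V) : MulAction (Gam hA o) (KS S Φ o) where
  smul γ z := ⟨γ.1 • z.1, gam_smul hA o γ.2 z.2⟩
  one_smul z := Subtype.ext (one_smul _ _)
  mul_smul γ δ z := Subtype.ext (mul_smul γ.1 δ.1 z.1)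

theorem smulK (hA : Ac H S Φ) (o : V) (γ : Gam hA o) (z : KS S Φ o) :
    (γ • z).1 = γ.1 • z.1 := rfl

/-- the projection to `H` -/
def prH (hA : Ac H S Φ) (o : V) : Gam hA o →* H :=
  (SemidirectProduct.rightHom).comp (Gam hA o).subtype

theorem prH_apply (hA : Ac H S Φ) (o : V) (γ : Gam hA o) : prH hA o γ = γ.1.right := rfl

theorem smulK_fst (hA : Ac H S Φ) (o : V) (γ : Gam hA o) (z : KS S Φ o) :
    (γ • z).1.1 = prH hA o γ • z.1.1 := rfl

theorem ac_cover (hA : Ac H S Φ) (o : V) : Ac (Gam hA o) (DK S Φ o) (FK S Φ o) := by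
  constructor
  · intro γ z w h
    exact smul_adj hA γ.1 h
  · intro γ φ hφ
    refine ⟨hA.face γ.1.right _ hφ.1, fun i => ?_⟩
    exact smul_adj hA γ.1 (hφ.2 i)

theorem mi_cover {ℓ : V → V → ℝ} {w : (ℤ → V) → ℝ} (hA : Ac H S Φ) (hM : Mi H S Φ ℓ w) (o : V) :
    Mi (Gam hA o) (DK S Φ o) (FK S Φ o) (fun x y => ℓ x.1.1 y.1.1)
      (fun φ => w fun i => (φ i).1.1) := by
  constructor
  · intro γ z z' h
    exact hM.len _ _ _ (show (DG S Φ).Adj z.1 z'.1 from h).1
  · intro γ φ hφ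
    exact hM.ang _ _ hφ.1

/-- an element of the group which fixes a vertex is determined by its image in `H` -/
theorem stab_inj (hA : Ac H S Φ) (o : V) {γ δ : Gam hA o} {z : KS S Φ o} (hγ : γ • z = z)
    (hδ : δ • z = z) (h : prH hA o γ = prH hA o δ) : γ = δ := by
  have h1 : γ.1.left * sh hA γ.1.right z.1.2 = z.1.2 := by
    have := congrArg (fun w : KS S Φ o => w.1.2) hγ
    exact this
  have h2 : δ.1.left * sh hA δ.1.right z.1.2 = z.1.2 := by
    have := congrArg (fun w : KS S Φ o => w.1.2) hδ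
    exact this
  have h3 : γ.1.right = δ.1.right := h
  apply Subtype.ext
  apply SemidirectProduct.ext
  · have h4 := h1.trans h2.symm
    rw [h3] at h4
    exact mul_right_cancel h4
  · exact h3

theorem fin_stab (hA : Ac H S Φ) (o : V) (P : H → Prop) (z : KS S Φ o)
    (hf : {h : H | h • z.1.1 = z.1.1 ∧ P h}.Finite) :
    {γ : Gam hA o | γ • z = z ∧ P (prH hA o γ)}.Finite := by
  refine Set.Finite.of_finite_image (f := prH hA o) (hf.subset ?_) ?_
  · rintro _ ⟨γ, ⟨h1, h2⟩, rfl⟩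
    refine ⟨?_, h2⟩
    rw [← smulK_fst, h1]
  · intro γ hγ δ hδ h
    exact stab_inj hA o hγ.1 hδ.1 h

theorem nbr_fin (o : V) (z : KS S Φ o) (h : {y | S.Adj z.1.1 y}.Finite) :
    {w | (DK S Φ o).Adj z w}.Finite := by
  refine Set.Finite.of_finite_image (f := fun w : KS S Φ o => w.1.1) (h.subset ?_) ?_
  · rintro _ ⟨w, hw, rfl⟩
    exact (show (DG S Φ).Adj z.1 w.1 from hw).1
  · intro w hw w' hw' e
    have h1 : (DG S Φ).Adj z.1 w.1 := hw
    have h2 : (DG S Φ).Adj z.1 w'.1 := hw'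
    have e' : w.1.1 = w'.1.1 := e
    refine Subtype.ext (Prod.ext e' ?_)
    rw [h1.2, h2.2, e']

theorem KS_reach (o : V) {z : V × PG S Φ} (hz : z ∈ KS S Φ o) : S.Reachable o z.1 := by
  have hz' := (reachable_iff_reflTransGen _ _).1 hz
  rw [reachable_iff_reflTransGen]
  clear hz
  induction hz' with
  | refl => exact Relation.ReflTransGen.refl
  | tail _ hbc ih => exact ih.tail hbc.1

theorem orb_fin (hA : Ac H S Φ) (o : V) {B : Set V} (hB : B.Finite)
    (h : ∀ x, S.Reachable o x → ∃ g : H, g • x ∈ B) :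
    ∃ B' : Set (KS S Φ o), B'.Finite ∧ ∀ z : KS S Φ o, ∃ γ : Gam hA o, γ • z ∈ B' := by
  classical
  let z0 : KS S Φ o := ⟨(o, 1), Reachable.refl _⟩
  let F : V → KS S Φ o := fun b =>
    if hb : ∃ z : KS S Φ o, ∃ g : H, g • z.1.1 = b then hb.choose else z0
  refine ⟨F '' B, hB.image F, fun z => ?_⟩
  obtain ⟨g, hg⟩ := h z.1.1 (KS_reach o z.2)
  have hb : ∃ z' : KS S Φ o, ∃ g' : H, g' • z'.1.1 = g • z.1.1 := ⟨z, g, rfl⟩
  have hF : F (g • z.1.1) = hb.choose := dif_pos hb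
  obtain ⟨g', hg'⟩ := hb.choose_spec
  rw [← hF] at hg'
  set w := F (g • z.1.1) with hw
  let γ : EG hA := ⟨w.1.2 * (sh hA (g'⁻¹ * g) z.1.2)⁻¹, g'⁻¹ * g⟩
  have hγ : γ • z.1 = w.1 := by
    refine Prod.ext ?_ ?_
    · rw [smul_fst]
      show (g'⁻¹ * g) • z.1.1 = w.1.1
      rw [mul_smul, ← hg', inv_smul_smul]
    · rw [smul_snd]
      show w.1.2 * (sh hA (g'⁻¹ * g) z.1.2)⁻¹ * sh hA (g'⁻¹ * g) z.1.2 = w.1.2
      rw [inv_mul_cancel_right]
  refine ⟨⟨γ, gam_of hA o z.2 (by rw [hγ]; exact w.2)⟩, g • z.1.1, hg, ?_⟩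
  exact Subtype.ext hγ.symm

end

end Run7.h909.TD
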