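import Pool.Agent.Run7.h909.TD.Cyc2

/-!
# Groups acting on complexes of dimension two
-/

set_option autoImplicit false

namespace Run7.h909.TD

open SimpleGraph
open Pool.Agent.Y110.FJ (ClosedE)
open Pool.Agent.Y462.SS (Closed)

section

variable {G V : Type} [Group G] [MulAction G V] {T : SimpleGraph V} {F : Set (ℤ → V)}

/-- elements fixing `x` have powers fixing the neighbours of `x` -/
def Gc (G : Type) [Group G] {V : Type} [MulAction G V] (T : SimpleGraph V) : Prop :=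
  ∀ x y : V, T.Adj x y → ∀ g : G, g • x = x → ∃ n : ℕ, 0 < n ∧ g ^ n • y = y

theorem Gc_cover {H : Type} [Group H] [MulAction H V] {S : SimpleGraph V} {Φ : Set (ℤ → V)}
    (hA : Ac H S Φ) (o : V) (h : Gc H S) : Gc (Gam hA o) (DK S Φ o) := by
  intro z w hzw γ hγ
  have hzw' : (DG S Φ).Adj z.1 w.1 := hzw
  have h1 : prH hA o γ • z.1.1 = z.1.1 := by rw [← smulK_fst, hγ]
  obtain ⟨n, hn, hn'⟩ := h _ _ hzw'.1 _ h1
  refine ⟨n, hn, ?_⟩
  have h2 : γ ^ n • z = z := pow_fix hγ n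
  have h3 : (DG S Φ).Adj z.1 (γ ^ n • w).1 := by
    have := (ac_cover hA o).adj (γ ^ n) z w hzw
    rw [h2] at this
    exact this
  have h4 : (γ ^ n • w).1.1 = w.1.1 := by
    rw [smulK_fst, map_pow, hn']
  refine Subtype.ext (Prod.ext h4 ?_)
  rw [h3.2, hzw'.2, h4]

/-- the neighbours in the subgraphs -/
theorem nbr_Si {H : Type} [Group H] [MulAction H V] {T : SimpleGraph V}
    (hG : Gc H T) (f : H →* Multiplicative ℤ) (hk : ∀ x : V, {g : H | g • x = x ∧ f g = 1}.Finite)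
    (i : Ix H V) (x : V) : {y | (Si T i).Adj x y}.Finite := by
  -- finite orbits
  have horb : ∀ a : V, T.Adj x a → {y | ∃ g : H, g • x = x ∧ y = g • a}.Finite := by
    intro a ha
    by_cases hex : ∃ g : H, g • x = x ∧ vl f g ≠ 0
    · obtain ⟨g, hg, hfg⟩ := hex
      obtain ⟨n, hn, hga⟩ := hG x a ha g hg
      have hfn : vl f (g ^ n) ≠ 0 := by
        rw [vl_pow]
        exact mul_ne_zero (by exact_mod_cast hn.ne') hfg
      obtain ⟨R, hR, -, hR2⟩ := rep_fin f (hk x) (pow_fix hg n) hfn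
      refine (hR.image fun u => u • a).subset ?_
      rintro _ ⟨u, hu, rfl⟩
      obtain ⟨r, hr, k, rfl⟩ := hR2 u hu
      exact ⟨r, hr, by rw [mul_smul, zpow_fix hga]⟩
    · push Not at hex
      refine ((hk x).image fun u => u • a).subset ?_
      rintro _ ⟨u, hu, rfl⟩
      exact ⟨u, ⟨hu, (vl_eq_zero f u).1 (hex u hu)⟩, rfl⟩
  -- for each pair
  have hone : ∀ b c : V, {y | T.Adj x y ∧ ∃ g : H, g • x = b ∧ g • y = c}.Finite := by
    intro b c
    by_cases hex : ∃ y, T.Adj x y ∧ ∃ g : H, g • x = b ∧ g • y = c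
    · obtain ⟨y0, hy0, g0, h1, h2⟩ := hex
      refine (horb y0 hy0).subset ?_
      rintro y ⟨hy, g, h3, h4⟩
      refine ⟨g⁻¹ * g0, ?_, ?_⟩
      · rw [mul_smul, h1, ← h3, inv_smul_smul]
      · rw [mul_smul, h2, ← h4, inv_smul_smul]
    · refine Set.Finite.subset Set.finite_empty fun y hy => ?_
      exact hex ⟨y, hy⟩
  refine Set.Finite.subset (s := ⋃ e ∈ i.2, ({y | T.Adj x y ∧ ∃ g : H, g • x = e.1 ∧ g • y = e.2} ∪
    {y | T.Adj x y ∧ ∃ g : H, g • x = e.2 ∧ g • y = e.1})) ?_ ?_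
  · exact Set.Finite.biUnion (Finset.finite_toSet _) fun e _ => (hone _ _).union (hone _ _)
  · rintro y ⟨h1, g, -, h2⟩
    simp only [Set.mem_iUnion]
    rcases h2 with h2 | h2
    · exact ⟨_, h2, Or.inl ⟨h1, g, rfl, rfl⟩⟩
    · exact ⟨_, h2, Or.inr ⟨h1, g, rfl, rfl⟩⟩

/-- finitely many orbits of vertices -/
theorem orb_Si {H : Type} [Group H] [MulAction H V] {T : SimpleGraph V} {F : Set (ℤ → V)}
    (hA : Ac H T F) (i : Ix H V) (o : V) : ∃ B' : Set (KS (Si T i) (Fi T F i) o), B'.Finite ∧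
      ∀ z : KS (Si T i) (Fi T F i) o, ∃ γ : Gam (Ai hA i) o, γ • z ∈ B' := by
  classical
  refine orb_fin (Ai hA i) o (B := {o} ∪ ((fun e : V × V => e.1) '' (i.2 : Set (V × V)) ∪
    (fun e : V × V => e.2) '' (i.2 : Set (V × V)))) ?_ ?_
  · exact (Set.finite_singleton o).union (((Finset.finite_toSet _).image _).union
      ((Finset.finite_toSet _).image _))
  · intro x hx
    rw [reachable_iff_reflTransGen] at hx
    induction hx with
    | refl => exact ⟨1, Or.inl (one_smul _ o)⟩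
    | tail _ hbc _ =>
      obtain ⟨-, g, hg, h2⟩ := hbc
      refine ⟨⟨g, hg⟩, Or.inr ?_⟩
      rcases h2 with h2 | h2
      · exact Or.inr ⟨_, h2, rfl⟩
      · exact Or.inl ⟨_, h2, rfl⟩

/-- **actions with virtually cyclic stabilizers** -/
theorem cyc_all {C : ∀ (G : Type) [Group G], Prop} (hC : ClosedE C) (hcat : CatC C)
    {ℓ : V → V → ℝ} {w : (ℤ → V) → ℝ} (hx : Cx T F ℓ w) (hs : SC T F) (hA : Ac G T F)
    (hM : Mi G T F ℓ w)
    (hG : Gc G T) (f : G →* Multiplicative ℤ)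
    (hk : ∀ x : V, {g : G | g • x = x ∧ f g = 1}.Finite) : C G := by
  obtain ⟨o⟩ := hs.1.nonempty
  refine col hC.base hx hA hs o fun i => ?_
  have hGi : Gc (Hi (V := V) i) (Si T i) := by
    intro x y hxy g hg
    obtain ⟨n, hn, h⟩ := hG x y hxy.1 (g : G) hg
    exact ⟨n, hn, h⟩
  refine thmZ (f.comp (prG hA o i)) hC hcat (cx_cover (Ci hx i) o)
    (sc_cover (Ci hx i) o) (ac_cover (Ai hA i) o) (mi_cover (Ai hA i) (Mii hM i) o) ?_
    (orb_Si hA i o) ?_ (Gc_cover (Ai hA i) o hGi)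
  · exact fun z => nbr_fin o z (nbr_Si hG f hk i z.1.1)
  · intro z
    refine fin_stab (Ai hA i) o (fun h => f (h : G) = 1) z ?_
    refine Set.Finite.of_finite_image (f := fun h : Hi (V := V) i => (h : G))
      ((hk z.1.1).subset ?_) ?_
    · rintro _ ⟨h, ⟨h1, h2⟩, rfl⟩
      exact ⟨h1, h2⟩
    · exact fun a _ b _ hab => Subtype.ext hab

/-- one homomorphism for finitely many vertices -/
theorem one_hom {C : ∀ (G : Type) [Group G], Prop} (hC : Closed C)
    (h : ∀ x : V, ∃ (P : Type) (_ : Group P) (f : G →* P), C P ∧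
      {g : G | g • x = x ∧ f g = 1}.Finite) (B : Finset V) :
    ∃ (P : Type) (_ : Group P) (f : G →* P), C P ∧
      ∀ x ∈ B, {g : G | g • x = x ∧ f g = 1}.Finite := by
  classical
  induction B using Finset.induction_on with
  | empty => exact ⟨Multiplicative ℤ, inferInstance, 1, hC.int, fun x hx =>
      absurd hx (Finset.notMem_empty _)⟩
  | insert a B _ ih =>
    obtain ⟨P, _, f, hP, hf⟩ := ih
    obtain ⟨Q, _, k, hQ, hk⟩ := h a
    refine ⟨P × Q, inferInstance, f.prod k, hC.prod P Q hP hQ, fun x hx => ?_⟩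
    rcases Finset.mem_insert.1 hx with rfl | hx
    · refine hk.subset fun g hg => ⟨hg.1, congrArg Prod.snd hg.2⟩
    · refine (hf x hx).subset fun g hg => ⟨hg.1, congrArg Prod.fst hg.2⟩

/-- **the main theorem** -/
theorem main {C : ∀ (G : Type) [Group G], Prop} (hC : ClosedE C) (hcat : CatC C)
    {ℓ : V → V → ℝ} {w : (ℤ → V) → ℝ} (hx : Cx T F ℓ w) (hs : SC T F) (hA : Ac G T F)
    (hM : Mi G T F ℓ w)
    (hG : Gc G T) (h : ∀ x : V, ∃ (P : Type) (_ : Group P) (f : G →* P), C P ∧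
      {g : G | g • x = x ∧ f g = 1}.Finite) : C G := by
  classical
  obtain ⟨o⟩ := hs.1.nonempty
  refine col hC.base hx hA hs o fun i => ?_
  have hGi : Gc (Hi (V := V) i) (Si T i) := by
    intro x y hxy g hg
    obtain ⟨n, hn, h⟩ := hG x y hxy.1 (g : G) hg
    exact ⟨n, hn, h⟩
  have hGc := Gc_cover (Ai hA i) o hGi
  have hxi := cx_cover (Ci hx i) o
  have hsi := sc_cover (Ci hx i) o
  have hAi := ac_cover (Ai hA i) o
  have hMi := mi_cover (Ai hA i) (Mii hM i) o
  -- one homomorphism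
  obtain ⟨P, _, f0, hP, hf0⟩ := one_hom hC.base h
    ({o} ∪ (i.2.image (fun e : V × V => e.1) ∪ i.2.image (fun e : V × V => e.2)))
  let f : Gam (Ai hA i) o →* P := f0.comp (prG hA o i)
  have hfk : ∀ z : KS (Si T i) (Fi T F i) o, {γ : Gam (Ai hA i) o | γ • z = z ∧ f γ = 1}.Finite := by
    intro z
    refine fin_stab (Ai hA i) o (fun h => f0 (h : G) = 1) z ?_
    have hr := KS_reach o z.2
    have hb : ∃ g : G, g • z.1.1 ∈ ({o} ∪ (i.2.image (fun e : V × V => e.1) ∪
        i.2.image (fun e : V × V => e.2)) : Finset V) := by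
      rw [reachable_iff_reflTransGen] at hr
      generalize z.1.1 = x at hr
      induction hr with
      | refl => exact ⟨1, by rw [one_smul]; simp⟩
      | tail _ hbc _ =>
        obtain ⟨-, g, hg, h2⟩ := hbc
        refine ⟨g, Finset.mem_union_right _ ?_⟩
        rcases h2 with h2 | h2
        · exact Finset.mem_union_right _ (Finset.mem_image.2 ⟨_, h2, rfl⟩)
        · exact Finset.mem_union_left _ (Finset.mem_image.2 ⟨_, h2, rfl⟩)
    obtain ⟨g, hg⟩ := hb
    refine Set.Finite.of_finite_image (f := fun h : Hi (V := V) i => g * (h : G) * g⁻¹)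
      ((hf0 _ hg).subset ?_) ?_
    · rintro _ ⟨h, ⟨h1, h2⟩, rfl⟩
      have h1' : (h : G) • z.1.1 = z.1.1 := h1
      refine ⟨?_, ?_⟩
      · rw [mul_smul, mul_smul, inv_smul_smul, h1']
      · rw [map_mul, map_mul, h2, mul_one, ← map_mul, mul_inv_cancel, map_one]
    · intro a _ b _ hab
      exact Subtype.ext (mul_left_cancel (mul_right_cancel hab))
  -- subgroups
  have hsub : ∀ (H : Subgroup (Gam (Ai hA i) o)) (κ : H →* Multiplicative ℤ),
      (∀ h : H, κ h = 1 → f (h : Gam (Ai hA i) o) = 1) → C H := by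
    intro H κ hκ
    refine cyc_all hC hcat hxi hsi (G := H) ⟨fun g x y hxy => hAi.adj _ x y hxy,
      fun g φ hφ => hAi.face _ φ hφ⟩ ⟨fun g x y hxy => hMi.len _ x y hxy,
      fun g φ hφ => hMi.ang _ φ hφ⟩ ?_ κ ?_
    · intro x y hxy g hg
      obtain ⟨n, hn, h⟩ := hGc x y hxy (g : Gam (Ai hA i) o) hg
      exact ⟨n, hn, h⟩
    · intro z
      refine Set.Finite.of_finite_image (f := fun h : H => (h : Gam (Ai hA i) o))
        ((hfk z).subset ?_) ?_
      · rintro _ ⟨h, ⟨h1, h2⟩, rfl⟩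
        exact ⟨h1, hκ h h2⟩
      · exact fun a _ b _ hab => Subtype.ext hab
  refine Pool.Agent.Y529.FJ.t_ext C hC _ f.ker ?_ ?_ ?_
  · exact hsub f.ker 1 fun h _ => h.2
  · refine hC.base.of_injective _ P (QuotientGroup.kerLift f) (QuotientGroup.kerLift_injective f) hP
  · intro g hg
    obtain ⟨κ, hκ⟩ := kap f.ker g hg
    exact hsub _ κ fun h hh => (hκ h).1 hh

end

end Run7.h909.TD
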