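import Pool.Agent.Run7.h909.TD.Cover

/-!
# The universal cover is simply connected
-/

set_option autoImplicit false

namespace Run7.h909.TD

open SimpleGraph

section

variable {V : Type} {S : SimpleGraph V} {Φ : Set (ℤ → V)} {o : V} {L : Type} [Group L]

open Classical in
/-- the values of a cocycle on the cover, extended by one -/
noncomputable def ct (c : KS S Φ o → KS S Φ o → L) (x : V) (π : PG S Φ) (y : V) : L :=
  if h : (x, π) ∈ KS S Φ o ∧ (y, π * ed S Φ x y) ∈ KS S Φ o then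
    c ⟨(x, π), h.1⟩ ⟨(y, π * ed S Φ x y), h.2⟩ else 1

theorem ct_mem (c : KS S Φ o → KS S Φ o → L) {z w : KS S Φ o} (h : (DG S Φ).Adj z.1 w.1) :
    ct c z.1.1 z.1.2 w.1.1 = c z w := by
  have hw : (w.1.1, z.1.2 * ed S Φ z.1.1 w.1.1) = w.1 := Prod.ext rfl h.2.symm
  have h1 : (z.1.1, z.1.2) ∈ KS S Φ o ∧ (w.1.1, z.1.2 * ed S Φ z.1.1 w.1.1) ∈ KS S Φ o :=
    ⟨z.2, by rw [hw]; exact w.2⟩
  unfold ct
  rw [dif_pos h1]
  congr 1
  exact Subtype.ext hw

theorem ct_not (c : KS S Φ o → KS S Φ o → L) {x y : V} {π : PG S Φ} (h : (x, π) ∉ KS S Φ o) :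
    ct c x π y = 1 := by
  unfold ct
  exact dif_neg fun h1 => h h1.1

/-- the permutation given by an edge -/
noncomputable def pe (c : KS S Φ o → KS S Φ o → L) (x y : V) : Equiv.Perm (PG S Φ × L) where
  toFun z := (z.1 * ed S Φ x y, z.2 * ct c x z.1 y)
  invFun z := (z.1 * (ed S Φ x y)⁻¹, z.2 * (ct c x (z.1 * (ed S Φ x y)⁻¹) y)⁻¹)
  left_inv z := by
    refine Prod.ext ?_ ?_
    · show z.1 * ed S Φ x y * (ed S Φ x y)⁻¹ = z.1
      group
    · show z.2 * ct c x z.1 y * (ct c x (z.1 * ed S Φ x y * (ed S Φ x y)⁻¹) y)⁻¹ = z.2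
      rw [mul_inv_cancel_right, mul_inv_cancel_right]
  right_inv z := by
    refine Prod.ext ?_ ?_
    · show z.1 * (ed S Φ x y)⁻¹ * ed S Φ x y = z.1
      group
    · show z.2 * (ct c x (z.1 * (ed S Φ x y)⁻¹) y)⁻¹ * ct c x (z.1 * (ed S Φ x y)⁻¹) y = z.2
      rw [inv_mul_cancel_right]

theorem pe_apply (c : KS S Φ o → KS S Φ o → L) (x y : V) (z : PG S Φ × L) :
    pe c x y z = (z.1 * ed S Φ x y, z.2 * ct c x z.1 y) := rfl

/-- the lift of a face -/
noncomputable def lf (φ : ℤ → V) (n : ℕ) (π : PG S Φ) (i : ℤ) : V × PG S Φ :=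
  (φ i, π * wrap (ed S Φ) φ (i % n).toNat)

theorem lf_nat {φ : ℤ → V} {n : ℕ} (hφ : φ ∈ Φ) (hn : Per φ n) (π : PG S Φ) {k : ℕ} (hk : k ≤ n)
    : lf φ n π k = (φ k, π * wrap (ed S Φ) φ k) := by
  unfold lf
  rcases hk.lt_or_eq with h | h
  · have : ((k : ℤ) % n).toNat = k := by
      rw [← Int.natCast_mod, Nat.mod_eq_of_lt h, Int.toNat_natCast]
    rw [this]
  · subst h
    rw [Int.emod_self, Int.toNat_zero, wrap_zero, coc_ed.face φ hφ k hn]

theorem lf_adj {ℓ : V → V → ℝ} {w : (ℤ → V) → ℝ} (hx : Cx S Φ ℓ w) {φ : ℤ → V} {n : ℕ} (hn0 : 0 < n) (hφ : φ ∈ Φ)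
    (hn : Per φ n) (π : PG S Φ) (i : ℤ) : (DG S Φ).Adj (lf φ n π i) (lf φ n π (i + 1)) := by
  have key : ∀ i : ℤ, ∃ k : ℕ, k < n ∧ (n : ℤ) ∣ i - k := by
    intro i
    refine ⟨(i % n).toNat, ?_, ?_⟩
    · have h1 := Int.emod_nonneg i (b := n) (by omega)
      have h2 := Int.emod_lt_of_pos i (b := n) (by omega)
      omega
    · rw [Int.toNat_of_nonneg (Int.emod_nonneg i (by omega))]
      exact Int.dvd_self_sub_emod
  have hper : ∀ i j : ℤ, (n : ℤ) ∣ i - j → lf φ n π i = lf (S := S) (Φ := Φ) φ n π j := by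
    intro i j hij
    unfold lf
    rw [(hn i j).2 hij, (Int.modEq_iff_dvd.2 hij).symm]
  obtain ⟨k, hk, hik⟩ := key i
  rw [hper i k hik, hper (i + 1) ((k + 1 : ℕ) : ℤ) (by
    have : i + 1 - ((k + 1 : ℕ) : ℤ) = i - k := by push_cast; ring
    rw [this]
    exact hik), lf_nat hφ hn π hk.le, lf_nat hφ hn π hk]
  refine ⟨?_, ?_⟩
  · show S.Adj (φ k) (φ ((k + 1 : ℕ) : ℤ))
    push_cast
    exact hx.adj φ hφ k
  · show π * wrap (ed S Φ) φ (k + 1) = π * wrap (ed S Φ) φ k * ed S Φ (φ k) (φ ((k + 1 : ℕ) : ℤ))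
    rw [wrap_succ, mul_assoc]
    push_cast
    rfl

/-- the product of the permutations along a path -/
theorem pe_wrap (c : KS S Φ o → KS S Φ o → L) (φ : ℤ → V) (π : PG S Φ) (l : L) (n : ℕ) :
    (wrap (fun x y => (pe c x y)⁻¹) φ n)⁻¹ (π, l) = (π * wrap (ed S Φ) φ n,
      l * ((List.range n).map fun k : ℕ =>
        ct c (φ k) (π * wrap (ed S Φ) φ k) (φ (k + 1))).prod) := by
  induction n with
  | zero => simp [wrap_zero]
  | succ n ih =>
    rw [wrap_succ, mul_inv_rev, inv_inv, Equiv.Perm.mul_apply, ih, pe_apply, wrap_succ,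
      List.range_succ, List.map_append, List.prod_append]
    simp [mul_assoc]

theorem coc_pe {ℓ : V → V → ℝ} {w : (ℤ → V) → ℝ} (hx : Cx S Φ ℓ w) {c : KS S Φ o → KS S Φ o → L}
    (hc : Coc (DK S Φ o) (FK S Φ o) c) : Coc S Φ (fun x y => (pe c x y)⁻¹) := by
  constructor
  · intro x y hxy
    rw [← mul_inv_rev, inv_eq_one]
    ext1 z
    rw [Equiv.Perm.mul_apply, pe_apply, pe_apply, Equiv.Perm.one_apply]
    have h1 : z.1 * ed S Φ x y * ed S Φ y x = z.1 := by
      rw [mul_assoc, coc_ed.inv x y hxy, mul_one]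
    refine Prod.ext h1 ?_
    show z.2 * ct c x z.1 y * ct c y (z.1 * ed S Φ x y) x = z.2
    have had : (DG S Φ).Adj (x, z.1) (y, z.1 * ed S Φ x y) := ⟨hxy, rfl⟩
    by_cases hm : (x, z.1) ∈ KS S Φ o
    · have hm' : (y, z.1 * ed S Φ x y) ∈ KS S Φ o := KS_adj hm had
      have e1 := ct_mem c (z := ⟨_, hm⟩) (w := ⟨_, hm'⟩) had
      have e2 := ct_mem c (z := ⟨_, hm'⟩) (w := ⟨_, hm⟩) had.symm
      have e3 := hc.inv ⟨_, hm⟩ ⟨_, hm'⟩ had
      rw [← e1, ← e2] at e3
      rw [mul_assoc]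
      exact (congrArg (z.2 * ·) e3).trans (mul_one _)
    · have hm' : (y, z.1 * ed S Φ x y) ∉ KS S Φ o := fun h => hm (KS_adj h had.symm)
      rw [ct_not c hm, ct_not c hm', mul_one, mul_one]
  · intro φ hφ n hn
    rw [← inv_eq_one]
    ext1 z
    obtain ⟨π, l⟩ := z
    rw [pe_wrap, coc_ed.face φ hφ n hn, mul_one, Equiv.Perm.one_apply]
    refine Prod.ext rfl ?_
    show l * _ = l
    obtain ⟨n', hn', hn''⟩ := hx.per φ hφ
    have hnn : n' = n := hn''.unique hn
    subst hnn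
    have hn0 : 0 < n' := by omega
    have hadj := lf_adj hx hn0 hφ hn π
    by_cases hm : (φ 0, π) ∈ KS S Φ o
    · have h0 : lf φ n' π 0 = (φ 0, π) := by
        have := lf_nat hφ hn π (Nat.zero_le n')
        simpa [wrap_zero] using this
      have hmem : ∀ i : ℤ, lf φ n' π i ∈ KS S Φ o := by
        intro i
        induction i using Int.induction_on with
        | zero => rw [h0]; exact hm
        | succ k ih => exact KS_adj ih (hadj _)
        | pred k ih =>
          have := hadj (-k - 1)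
          rw [sub_add_cancel] at this
          exact KS_adj ih this.symm
      have hF : (fun i => (⟨lf φ n' π i, hmem i⟩ : KS S Φ o)) ∈ FK S Φ o :=
        ⟨hφ, fun i => hadj i⟩
      have hP : Per (fun i => (⟨lf φ n' π i, hmem i⟩ : KS S Φ o)) n' := by
        have h1 := per_lift hx (φ := lf φ n' π) hφ hn hadj
        intro i j
        exact Subtype.ext_iff.trans (h1 i j)
      have h2 := hc.face _ hF n' hP
      rw [← mul_one l]
      rw [mul_assoc, one_mul]
      congr 1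
      rw [← h2]
      unfold wrap
      congr 1
      refine List.map_congr_left fun k hk => ?_
      have hk' : k < n' := List.mem_range.1 hk
      have e1 := ct_mem c (z := ⟨lf φ n' π k, hmem k⟩) (w := ⟨lf φ n' π (k + 1), hmem _⟩) (hadj k)
      rw [← e1]
      show _ = ct c (φ k) (lf φ n' π k).2 (φ (k + 1))
      rw [lf_nat hφ hn π hk'.le]
      rfl
    · have hno : ∀ k : ℕ, k ≤ n' → (φ k, π * wrap (ed S Φ) φ k) ∉ KS S Φ o := by
        intro k
        induction k with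
        | zero => intro _; simpa [wrap_zero] using hm
        | succ k ih =>
          intro hk h
          refine ih (by omega) (KS_adj h ?_)
          have := hadj k
          rw [lf_nat hφ hn π (by omega : k ≤ n')] at this
          have h3 := lf_nat hφ hn π hk
          push_cast at h3
          rw [h3] at this
          push_cast
          exact this.symm
      have : ((List.range n').map fun k : ℕ =>
          ct c (φ k) (π * wrap (ed S Φ) φ k) (φ (k + 1))).prod = 1 := by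
        refine List.prod_eq_one fun x hx => ?_
        obtain ⟨k, hk, rfl⟩ := List.mem_map.1 hx
        exact ct_not c (hno k (List.mem_range.1 hk).le)
      rw [this, mul_one]

/-- **the universal cover is simply connected** -/
theorem sc_cover {ℓ : V → V → ℝ} {w : (ℤ → V) → ℝ} (hx : Cx S Φ ℓ w) (o : V) :
    SC (DK S Φ o) (FK S Φ o) := by
  refine ⟨conn_cover o, ?_⟩
  intro L _ c hc
  let Θ : PG S Φ →* Equiv.Perm (PG S Φ × L) := liftC (coc_pe hx hc)
  have hΘ : ∀ x y, Θ (ed S Φ x y) = (pe c x y)⁻¹ := fun x y => liftC_ed (coc_pe hx hc) x y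
  have hstep : ∀ (π : PG S Φ) (x y : V), (Θ (π * ed S Φ x y))⁻¹ (1, 1) =
      pe c x y ((Θ π)⁻¹ (1, 1)) := by
    intro π x y
    rw [map_mul, mul_inv_rev, hΘ, inv_inv, Equiv.Perm.mul_apply]
  have h1 : ∀ z ∈ KS S Φ o, ((Θ z.2)⁻¹ (1, 1)).1 = z.2 := by
    intro z hz
    have hz' := (reachable_iff_reflTransGen _ _).1 hz
    induction hz' with
    | refl => simp
    | tail hab hbc ih =>
      rename_i b d
      have hb : b ∈ KS S Φ o := (reachable_iff_reflTransGen _ _).2 hab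
      rw [hbc.2, hstep, pe_apply]
      show _ * _ = _
      rw [ih hb]
  refine ⟨fun z => ((Θ z.1.2)⁻¹ (1, 1)).2, fun z w hzw => ?_⟩
  have hzw' : (DG S Φ).Adj z.1 w.1 := hzw
  show c z w = ((Θ z.1.2)⁻¹ (1, 1)).2⁻¹ * ((Θ w.1.2)⁻¹ (1, 1)).2
  rw [eq_inv_mul_iff_mul_eq, hzw'.2, hstep, pe_apply]
  show _ = _ * ct c z.1.1 ((Θ z.1.2)⁻¹ (1, 1)).1 w.1.1
  rw [h1 z.1 z.2, ct_mem c hzw']

end

end Run7.h909.TD
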