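import Pool.Agent.Run7.h909.TD.Main
import Pool.Agent.N24.TR.Tree

/-!
# Products of two trees
-/

set_option autoImplicit false

namespace Run7.h909.TD

open SimpleGraph
open Pool.Agent.Y110.FJ (ClosedE)
open Pool.Agent.Y462.SS (Closed)

section square

variable {V : Type}

open Classical in
/-- the closed path `a, b, c, d` -/
noncomputable def sqf (a b c d : V) (i : ℤ) : V :=
  if i % 4 = 0 then a else if i % 4 = 1 then b else if i % 4 = 2 then c else d

theorem mod4 (i : ℤ) : i % 4 = 0 ∨ i % 4 = 1 ∨ i % 4 = 2 ∨ i % 4 = 3 := by omega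

theorem sqf0 (a b c d : V) {i : ℤ} (h : i % 4 = 0) : sqf a b c d i = a := by
  simp [sqf, h]

theorem sqf1 (a b c d : V) {i : ℤ} (h : i % 4 = 1) : sqf a b c d i = b := by
  simp [sqf, h]

theorem sqf2 (a b c d : V) {i : ℤ} (h : i % 4 = 2) : sqf a b c d i = c := by
  simp [sqf, h]

theorem sqf3 (a b c d : V) {i : ℤ} (h : i % 4 = 3) : sqf a b c d i = d := by
  simp [sqf, h]

theorem sqf_per {a b c d : V} (hab : a ≠ b) (hac : a ≠ c) (had : a ≠ d) (hbc : b ≠ c)
    (hbd : b ≠ d) (hcd : c ≠ d) : Per (sqf a b c d) 4 := by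
  intro i j
  have h4 : ((4 : ℕ) : ℤ) ∣ i - j ↔ i % 4 = j % 4 := by
    push_cast
    omega
  rw [h4]
  rcases mod4 i with hi | hi | hi | hi <;> rcases mod4 j with hj | hj | hj | hj <;>
    simp [sqf, hi, hj, hab, hac, had, hbc, hbd, hcd, hab.symm, hac.symm, had.symm, hbc.symm,
      hbd.symm, hcd.symm]

theorem sqf_adj {T : SimpleGraph V} {a b c d : V} (hab : T.Adj a b) (hbc : T.Adj b c)
    (hcd : T.Adj c d) (hda : T.Adj d a) (i : ℤ) : T.Adj (sqf a b c d i) (sqf a b c d (i + 1)) := by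
  rcases mod4 i with hi | hi | hi | hi
  · rw [sqf0 a b c d hi, sqf1 a b c d (by omega)]; exact hab
  · rw [sqf1 a b c d hi, sqf2 a b c d (by omega)]; exact hbc
  · rw [sqf2 a b c d hi, sqf3 a b c d (by omega)]; exact hcd
  · rw [sqf3 a b c d hi, sqf0 a b c d (by omega)]; exact hda

theorem wrap4 {L : Type} [Group L] (c : V → V → L) (φ : ℤ → V) :
    wrap c φ 4 = c (φ 0) (φ 1) * c (φ 1) (φ 2) * c (φ 2) (φ 3) * c (φ 3) (φ 4) := by
  rw [wrap_succ, wrap_succ, wrap_succ, wrap_succ, wrap_zero, one_mul]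
  norm_num

/-- no quadrilaterals in a tree -/
theorem no_quad {T : SimpleGraph V} (hT : T.IsAcyclic) {a b c d : V} (hab : T.Adj a b)
    (hbc : T.Adj b c) (had : T.Adj a d) (hdc : T.Adj d c) (hac : a ≠ c) : b = d := by
  have h1 : (Walk.cons hab (Walk.cons hbc Walk.nil)).IsPath := by
    simp [Walk.cons_isPath_iff, hab.ne, hbc.ne, hac]
  have h2 : (Walk.cons had (Walk.cons hdc Walk.nil)).IsPath := by
    simp [Walk.cons_isPath_iff, had.ne, hdc.ne, hac]
  have h3 := (hT.subsingleton_path a c).elim ⟨_, h1⟩ ⟨_, h2⟩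
  have h4 := congrArg (fun w : T.Path a c => w.1.support) h3
  simp at h4
  exact h4

end square

section product

variable {V1 V2 : Type} (T1 : SimpleGraph V1) (T2 : SimpleGraph V2)

/-- the squares of a product of two graphs -/
def SqF : Set (ℤ → V1 × V2) := {φ | Per φ 4 ∧ ∀ i : ℤ, (T1 □ T2).Adj (φ i) (φ (i + 1))}

variable {T1 T2}

theorem hor_ver (h1 : T1.IsAcyclic) {φ : ℤ → V1 × V2} (hφ : φ ∈ SqF T1 T2) {i : ℤ}
    (h : (φ i).2 = (φ (i + 1)).2) : (φ (i + 1)).1 = (φ (i + 2)).1 := by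
  have a0 := (boxProd_adj).1 (hφ.2 i)
  have a1 := (boxProd_adj).1 (hφ.2 (i + 1))
  have a2 := (boxProd_adj).1 (hφ.2 (i + 2))
  have a3 := (boxProd_adj).1 (hφ.2 (i + 3))
  have e2 : i + 1 + 1 = i + 2 := by ring
  have e3 : i + 2 + 1 = i + 3 := by ring
  have e4 : φ (i + 3 + 1) = φ i := by
    refine (hφ.1 _ _).2 ?_
    push_cast
    omega
  rw [e2] at a1
  rw [e3] at a2
  rw [e4] at a3
  have hne : φ i ≠ φ (i + 2) := by
    intro he
    have := (hφ.1 _ _).1 he
    push_cast at this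
    omega
  have hne' : φ (i + 1) ≠ φ (i + 3) := by
    intro he
    have := (hφ.1 _ _).1 he
    push_cast at this
    omega
  rcases a1 with ⟨a1, b1⟩ | ⟨a1, b1⟩
  · exfalso
    have hx : (φ i).1 ≠ (φ (i + 2)).1 := fun he => hne (Prod.ext he (h.trans b1))
    rcases a0 with ⟨a0, b0⟩ | ⟨a0, b0⟩
    · rcases a2 with ⟨a2, b2⟩ | ⟨a2, b2⟩
      · rcases a3 with ⟨a3, b3⟩ | ⟨a3, b3⟩
        · exact hne' (Prod.ext (no_quad h1 a0 a1 a3.symm a2.symm hx) (b1.trans b2))
        · exact a3.ne (((h.trans b1).trans b2).symm)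
      · rcases a3 with ⟨a3, b3⟩ | ⟨a3, b3⟩
        · exact a2.ne ((h.trans b1).symm.trans b3.symm)
        · exact hx (b3.symm.trans b2.symm)
    · exact a0.ne h
  · exact b1

theorem ver_hor (h2 : T2.IsAcyclic) {φ : ℤ → V1 × V2} (hφ : φ ∈ SqF T1 T2) {i : ℤ}
    (h : (φ i).1 = (φ (i + 1)).1) : (φ (i + 1)).2 = (φ (i + 2)).2 := by
  have a0 := (boxProd_adj).1 (hφ.2 i)
  have a1 := (boxProd_adj).1 (hφ.2 (i + 1))
  have a2 := (boxProd_adj).1 (hφ.2 (i + 2))
  have a3 := (boxProd_adj).1 (hφ.2 (i + 3))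
  have e2 : i + 1 + 1 = i + 2 := by ring
  have e3 : i + 2 + 1 = i + 3 := by ring
  have e4 : φ (i + 3 + 1) = φ i := by
    refine (hφ.1 _ _).2 ?_
    push_cast
    omega
  rw [e2] at a1
  rw [e3] at a2
  rw [e4] at a3
  have hne : φ i ≠ φ (i + 2) := by
    intro he
    have := (hφ.1 _ _).1 he
    push_cast at this
    omega
  have hne' : φ (i + 1) ≠ φ (i + 3) := by
    intro he
    have := (hφ.1 _ _).1 he
    push_cast at this
    omega
  rcases a1 with ⟨a1, b1⟩ | ⟨a1, b1⟩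
  · exact b1
  · exfalso
    have hx : (φ i).2 ≠ (φ (i + 2)).2 := fun he => hne (Prod.ext (h.trans b1) he)
    rcases a0 with ⟨a0, b0⟩ | ⟨a0, b0⟩
    · exact a0.ne h
    · rcases a2 with ⟨a2, b2⟩ | ⟨a2, b2⟩
      · rcases a3 with ⟨a3, b3⟩ | ⟨a3, b3⟩
        · exact hx (b3.symm.trans b2.symm)
        · exact a2.ne ((h.trans b1).symm.trans b3.symm)
      · rcases a3 with ⟨a3, b3⟩ | ⟨a3, b3⟩
        · exact a3.ne (((h.trans b1).trans b2).symm)
        · exact hne' (Prod.ext (b1.trans b2) (no_quad h2 a0 a1 a3.symm a2.symm hx))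

/-- two neighbours in the link of a square -/
theorem link_type (h1 : T1.IsAcyclic) (h2 : T2.IsAcyclic) {φ : ℤ → V1 × V2}
    (hφ : φ ∈ SqF T1 T2) :
    ((φ 0).2 = (φ 1).2 ∧ (φ (-1)).1 = (φ 0).1 ∧ (φ (-1)).2 ≠ (φ 0).2 ∧
      φ 2 = ((φ 1).1, (φ (-1)).2)) ∨
    ((φ 0).1 = (φ 1).1 ∧ (φ (-1)).2 = (φ 0).2 ∧ (φ 0).2 ≠ (φ 1).2 ∧
      φ 2 = ((φ (-1)).1, (φ 1).2)) := by
  have a0 := (boxProd_adj).1 (hφ.2 0)
  have am := (boxProd_adj).1 (hφ.2 (-1))
  rw [zero_add] at a0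
  rw [neg_add_cancel] at am
  have e3 : φ (-1) = φ (1 + 2) := by
    refine (hφ.1 _ _).2 ?_
    push_cast
    try omega
  rcases a0 with ⟨a0, b0⟩ | ⟨a0, b0⟩
  · rcases am with ⟨am, bm⟩ | ⟨am, bm⟩
    · exfalso
      have := hor_ver h1 hφ (i := -1) (by rw [neg_add_cancel]; exact bm)
      rw [neg_add_cancel] at this
      exact a0.ne this
    · refine Or.inl ⟨b0, bm, am.ne, ?_⟩
      have c1 := hor_ver h1 hφ (i := 0) (by rw [zero_add]; exact b0)
      rw [zero_add, zero_add] at c1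
      have c2 := ver_hor h2 hφ (i := 1) (by
        show (φ 1).1 = (φ (1 + 1)).1
        rw [c1]
        norm_num)
      rw [← e3] at c2
      refine Prod.ext c1.symm ?_
      show (φ 2).2 = (φ (-1)).2
      rw [← c2]
      norm_num
  · rcases am with ⟨am, bm⟩ | ⟨am, bm⟩
    · refine Or.inr ⟨b0, bm, a0.ne, ?_⟩
      have c1 := ver_hor h2 hφ (i := 0) (by rw [zero_add]; exact b0)
      rw [zero_add, zero_add] at c1
      have c2 := hor_ver h1 hφ (i := 1) (by
        show (φ 1).2 = (φ (1 + 1)).2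
        rw [c1]
        norm_num)
      rw [← e3] at c2
      refine Prod.ext ?_ c1.symm
      show (φ 2).1 = (φ (-1)).1
      rw [← c2]
      norm_num
    · exfalso
      have := ver_hor h2 hφ (i := -1) (by rw [neg_add_cancel]; exact bm)
      rw [neg_add_cancel] at this
      exact a0.ne this

theorem cx_prod (h1 : T1.IsAcyclic) (h2 : T2.IsAcyclic) :
    Cx (T1 □ T2) (SqF T1 T2) (fun _ _ => 1) (fun _ => Real.pi / 2) := by
  constructor
  · exact fun φ hφ i => hφ.2 i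
  · exact fun φ hφ => ⟨4, by norm_num, hφ.1⟩
  · intro φ hφ k
    refine ⟨hφ.1.shift k, fun i => ?_⟩
    have := hφ.2 (i + k)
    have e : i + k + 1 = i + 1 + k := by ring
    rw [e] at this
    exact this
  · intro φ hφ
    refine ⟨hφ.1.refl, fun i => ?_⟩
    have := (hφ.2 (-(i + 1))).symm
    have e : -(i + 1) + 1 = -i := by ring
    rw [e] at this
    exact this
  · exact fun _ _ _ => ⟨one_pos, rfl⟩
  · intro φ _
    have := Real.pi_pos
    exact ⟨by linarith, by linarith, rfl⟩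
  · intro φ hφ n hn
    have hn4 : n = 4 := hn.unique hφ.1
    subst hn4
    refine ⟨fun k => k * (Real.pi / 2), ?_, ?_, ?_⟩
    · intro k
      push_cast
      ring
    · push_cast
      ring
    · have hE : ∀ k : ℕ, Complex.exp ((((k : ℤ) : ℝ) * (Real.pi / 2) : ℝ) * Complex.I) =
          Complex.I ^ k := by
        intro k
        have : ((((k : ℤ) : ℝ) * (Real.pi / 2) : ℝ) : ℂ) * Complex.I =
            (k : ℂ) * (Real.pi / 2 * Complex.I) := by
          push_cast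
          ring
        rw [this, Complex.exp_nat_mul, Complex.exp_pi_div_two_mul_I]
      simp only [hE]
      simp [Finset.sum_range_succ, pow_succ]
  · intro φ hφ ψ hψ e0 e1 em
    have key : φ 2 = ψ 2 := by
      rcases link_type h1 h2 hφ with ⟨t1, t2, t3, t4⟩ | ⟨t1, t2, t3, t4⟩ <;>
        rcases link_type h1 h2 hψ with ⟨s1, s2, s3, s4⟩ | ⟨s1, s2, s3, s4⟩
      · rw [t4, s4, e1, em]
      · exact absurd (by rw [← e0, ← e1]; exact t1) s3
      · exact absurd (by rw [e0, e1]; exact s1) t3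
      · rw [t4, s4, e1, em]
    funext i
    have hφ4 : ∀ j : ℤ, i % 4 = j % 4 → φ i = φ j ∧ ψ i = ψ j := by
      intro j hj
      constructor
      · refine (hφ.1 _ _).2 ?_
        push_cast
        omega
      · refine (hψ.1 _ _).2 ?_
        push_cast
        omega
    rcases mod4 i with hi | hi | hi | hi
    · rw [(hφ4 0 hi).1, (hφ4 0 hi).2, e0]
    · rw [(hφ4 1 hi).1, (hφ4 1 hi).2, e1]
    · rw [(hφ4 2 hi).1, (hφ4 2 hi).2, key]
    · rw [(hφ4 (-1) (by omega)).1, (hφ4 (-1) (by omega)).2, em]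
  · intro b k hk a ha ψ hψ
    have hpi := Real.pi_pos
    have hk4 : 4 ≤ k := by
      by_contra hlt
      have hk3 : k = 3 := by omega
      subst hk3
      have ht : ∀ i : ℤ, ((a i).2 = b.2 ↔ ¬ (a (i + 1)).2 = b.2) := by
        intro i
        obtain ⟨hφ, c0, cm, c1⟩ := hψ i
        rcases link_type h1 h2 hφ with ⟨t1, t2, t3, t4⟩ | ⟨t1, t2, t3, t4⟩
        · rw [c0, c1] at t1
          rw [c0, cm] at t3
          constructor
          · exact fun h => absurd h t3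
          · exact fun h => absurd t1.symm h
        · rw [c0, c1] at t3
          rw [c0, cm] at t2
          constructor
          · exact fun _ h => t3 h.symm
          · exact fun _ => t2
      have h3 : a 3 = a 0 := (ha _ _).2 ⟨1, by norm_num⟩
      have q0 := ht 0
      have q1 := ht 1
      have q2 := ht 2
      norm_num at q0 q1 q2
      rw [h3] at q2
      tauto
    rw [Finset.sum_const, Finset.card_range, nsmul_eq_mul]
    have : (4 : ℝ) ≤ k := by exact_mod_cast hk4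
    nlinarith

theorem tree_sc {V L : Type} [Group L] {T : SimpleGraph V} (hT : T.IsTree) (e : V → V → L)
    (he : ∀ u v, T.Adj u v → e u v * e v u = 1) (o : V) :
    ∃ g : V → L, g o = 1 ∧ ∀ u v, T.Adj u v → g v = g u * e u v := by
  refine ⟨fun v => Pool.Agent.N24.TR.gam hT e o v, Pool.Agent.N24.TR.gam_self hT e he o, ?_⟩
  intro u v h
  show Pool.Agent.N24.TR.gam hT e o v = Pool.Agent.N24.TR.gam hT e o u * e u v
  rw [← Pool.Agent.N24.TR.gam_mul hT e he o u v, Pool.Agent.N24.TR.gam_adj hT e he h]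

theorem sq_rel {L : Type} [Group L] {c : V1 × V2 → V1 × V2 → L}
    (hc : Coc (T1 □ T2) (SqF T1 T2) c) {x x' : V1} {y y' : V2} (hx : T1.Adj x x')
    (hy : T2.Adj y y') :
    c (x, y) (x', y) * c (x', y) (x', y') = c (x, y) (x, y') * c (x, y') (x', y') := by
  have hab : (T1 □ T2).Adj (x, y) (x', y) := boxProd_adj.2 (Or.inl ⟨hx, rfl⟩)
  have hbc : (T1 □ T2).Adj (x', y) (x', y') := boxProd_adj.2 (Or.inr ⟨hy, rfl⟩)
  have hcd : (T1 □ T2).Adj (x', y') (x, y') := boxProd_adj.2 (Or.inl ⟨hx.symm, rfl⟩)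
  have hda : (T1 □ T2).Adj (x, y') (x, y) := boxProd_adj.2 (Or.inr ⟨hy.symm, rfl⟩)
  have hP : Per (sqf (x, y) (x', y) (x', y') (x, y')) 4 := by
    refine sqf_per hab.ne ?_ hda.ne.symm hbc.ne ?_ hcd.ne
    · intro h
      exact hx.ne (congrArg Prod.fst h)
    · intro h
      exact hx.ne (congrArg Prod.fst h).symm
  have h1 := hc.face _ ⟨hP, sqf_adj hab hbc hcd hda⟩ 4 hP
  rw [wrap4, sqf0 _ _ _ _ (by norm_num), sqf1 _ _ _ _ (by norm_num),
    sqf2 _ _ _ _ (by norm_num), sqf3 _ _ _ _ (by norm_num), sqf0 _ _ _ _ (by norm_num)] at h1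
  have h2 := hc.inv _ _ hcd
  have h3 := hc.inv _ _ hda
  have h2' : c (x', y') (x, y') = (c (x, y') (x', y'))⁻¹ := eq_inv_of_mul_eq_one_left h2
  have h3' : c (x, y') (x, y) = (c (x, y) (x, y'))⁻¹ := eq_inv_of_mul_eq_one_left h3
  rw [h2', h3', mul_inv_eq_one, mul_inv_eq_iff_eq_mul] at h1
  exact h1

theorem sc_prod (h1 : T1.IsTree) (h2 : T2.IsTree) : SC (T1 □ T2) (SqF T1 T2) := by
  refine ⟨h1.connected.boxProd h2.connected, ?_⟩
  intro L _ c hc
  obtain ⟨x0⟩ := h1.connected.nonempty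
  obtain ⟨y0⟩ := h2.connected.nonempty
  have hH : ∀ x x' y, T1.Adj x x' → (T1 □ T2).Adj (x, y) (x', y) :=
    fun x x' y h => boxProd_adj.2 (Or.inl ⟨h, rfl⟩)
  have hV : ∀ x y y', T2.Adj y y' → (T1 □ T2).Adj (x, y) (x, y') :=
    fun x y y' h => boxProd_adj.2 (Or.inr ⟨h, rfl⟩)
  obtain ⟨g, -, hg⟩ := tree_sc h1 (fun u v => c (u, y0) (v, y0))
    (fun u v h => hc.inv _ _ (hH u v y0 h)) x0
  choose k hk0 hk using fun x : V1 => tree_sc h2 (fun u v => c (x, u) (x, v))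
    (fun u v h => hc.inv _ _ (hV x u v h)) y0
  have key : ∀ x x' y, T1.Adj x x' → c (x, y0) (x', y0) * k x' y = k x y * c (x, y) (x', y) := by
    intro x x' y hx
    have hr := h2.connected.preconnected y0 y
    rw [reachable_iff_reflTransGen] at hr
    induction hr with
    | refl => rw [hk0, hk0, mul_one, one_mul]
    | @tail b d _ hbd ih =>
      rw [hk x' b d hbd, hk x b d hbd, ← mul_assoc, ih, mul_assoc, mul_assoc, sq_rel hc hx hbd]
  refine ⟨fun z => g z.1 * k z.1 z.2, ?_⟩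
  rintro ⟨x, y⟩ ⟨x', y'⟩ h
  rw [eq_inv_mul_iff_mul_eq]
  rcases boxProd_adj.1 h with ⟨ha, he⟩ | ⟨ha, he⟩
  · have he' : y = y' := he
    subst he'
    have ha' : T1.Adj x x' := ha
    show g x * k x y * c (x, y) (x', y) = g x' * k x' y
    rw [mul_assoc, ← key x x' y ha', hg x x' ha', mul_assoc]
  · have he' : x = x' := he
    subst he'
    have ha' : T2.Adj y y' := ha
    show g x * k x y * c (x, y) (x, y') = g x * k x y'
    rw [hk x y y' ha', mul_assoc]

/-- **products of two trees** -/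
theorem trees {C : ∀ (G : Type) [Group G], Prop} (hC : ClosedE C) (hcat : CatC C)
    {G : Type} [Group G] [MulAction G V1] [MulAction G V2] (h1 : T1.IsTree) (h2 : T2.IsTree)
    (a1 : ∀ (g : G) (x y : V1), T1.Adj x y → T1.Adj (g • x) (g • y))
    (a2 : ∀ (g : G) (x y : V2), T2.Adj x y → T2.Adj (g • x) (g • y))
    (hg : ∀ (x : V1) (y : V2) (g : G), g • x = x → g • y = y →
      (∀ x', T1.Adj x x' → ∃ n : ℕ, 0 < n ∧ g ^ n • x' = x') ∧
      ∀ y', T2.Adj y y' → ∃ n : ℕ, 0 < n ∧ g ^ n • y' = y')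
    (h : ∀ (x : V1) (y : V2), ∃ (P : Type) (_ : Group P) (f : G →* P), C P ∧
      {g : G | g • x = x ∧ g • y = y ∧ f g = 1}.Finite) : C G := by
  have hadj : ∀ (g : G) (x y : V1 × V2), (T1 □ T2).Adj x y → (T1 □ T2).Adj (g • x) (g • y) := by
    intro g x y hxy
    rcases boxProd_adj.1 hxy with ⟨ha, he⟩ | ⟨ha, he⟩
    · refine boxProd_adj.2 (Or.inl ⟨a1 g _ _ ha, ?_⟩)
      show g • x.2 = g • y.2
      rw [he]
    · refine boxProd_adj.2 (Or.inr ⟨a2 g _ _ ha, ?_⟩)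
      show g • x.1 = g • y.1
      rw [he]
  refine main hC hcat (cx_prod h1.isAcyclic h2.isAcyclic) (sc_prod h1 h2) (G := G) ⟨hadj, ?_⟩
    ⟨fun _ _ _ _ => rfl, fun _ _ _ => rfl⟩ ?_ ?_
  · intro g φ hφ
    exact ⟨Per.comp (fun x => g • x) (fun i j hij => smul_left_cancel g hij) hφ.1,
      fun i => hadj g _ _ (hφ.2 i)⟩
  · intro x y hxy g hgx
    have e1 : g • x.1 = x.1 := congrArg Prod.fst hgx
    have e2 : g • x.2 = x.2 := congrArg Prod.snd hgx
    obtain ⟨q1, q2⟩ := hg x.1 x.2 g e1 e2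
    rcases boxProd_adj.1 hxy with ⟨ha, he⟩ | ⟨ha, he⟩
    · obtain ⟨n, hn, hn'⟩ := q1 _ ha
      refine ⟨n, hn, Prod.ext hn' ?_⟩
      show g ^ n • y.2 = y.2
      rw [← he]
      exact pow_fix e2 n
    · obtain ⟨n, hn, hn'⟩ := q2 _ ha
      refine ⟨n, hn, Prod.ext ?_ hn'⟩
      show g ^ n • y.1 = y.1
      rw [← he]
      exact pow_fix e1 n
  · rintro ⟨x, y⟩
    obtain ⟨P, _, f, hP, hf⟩ := h x y
    refine ⟨P, inferInstance, f, hP, hf.subset ?_⟩
    rintro g ⟨hg1, hg2⟩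
    exact ⟨congrArg Prod.fst hg1, congrArg Prod.snd hg1, hg2⟩

end product

end Run7.h909.TD
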